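import Mathlib

/-!
# The independent domination game on subcubic trees: `c_d ≤ 11/20` and `c_s ≤ 11/20`

For every subcubic tree `T` of order `n ≥ 2`
(and, more generally, for every subcubic forest without isolated vertices)

  `I_d(T) ≤ 11n/20`   and   `I_s(T) ≤ (11n + 30)/20`.

Hence `c_d ≤ 11/20` and `c_s ≤ 11/20` (previously `c_d ≤ 4/7` and `c_s ≤ 3/4`).

## Idea of the proof
The position is described by the set `A` of legal vertices.  Give weight `20` to every isolated
vertex of `G[A]`, weight `30` in total to every component that is a path on three vertices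
(`11·3 - 3`), and weight `11` to every other vertex; `phi G A` is the total weight.  A move at a
vertex `v` of degree `d` of `G[A]` creating `i` newly isolated vertices changes the weight by
`-11(1+d) + 9i - 3·(number of new P₃ components)`.  Sweller's move can lose (weight after the
move plus `20` minus weight before) at most `30`, with equality only at the centre of a component
which is the tree `T₁₀` (a centre with three neighbours, each carrying two leaves).
`main_step` shows that Diminisher always has a move such that, whatever Sweller answers, the weight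
drops by at least `40` over the two moves.  The move is found by distinguishing
(1a) there is a `T₁₀` component; (1b), (1c) there is a vertex of degree `3` whose choice isolates
nothing; (2) one whose choice isolates at most one vertex; (3a) there is a vertex of degree `2`
whose choice isolates nothing; (3b) none of these, but some component is not `P₁`, `P₂`, `P₄`;
(4) all components are `P₁`, `P₂`, `P₄`.
-/

namespace Pool.Agent.Results.MP_ee8ab4_co.ElevenTwentieths

set_option linter.unusedSectionVars false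

open Finset

section game

variable {V : Type*} [Fintype V] [DecidableEq V] (G : SimpleGraph V) [DecidableRel G.Adj]

/-- The legal choices once the set `S` has been selected. -/
def legal (S : Finset V) : Finset V :=
  univ.filter (fun v => v ∉ S ∧ ∀ s ∈ S, ¬ G.Adj s v)

theorem card_dec {S : Finset V} {v : V} (hv : v ∈ legal G S) :
    Fintype.card V - (insert v S).card < Fintype.card V - S.card := by
  have h1 : v ∉ S := by
    simp only [legal, mem_filter] at hv
    exact hv.2.1
  have h2 : (insert v S).card = S.card + 1 := card_insert_of_notMem h1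
  have h3 : (insert v S).card ≤ Fintype.card V := card_le_univ _
  omega

/-- The final number of selected vertices under optimal play, when the set `S` has already been
selected and it is Diminisher's turn (`dim = true`) or Sweller's turn (`dim = false`). -/
def value (dim : Bool) (S : Finset V) : ℕ :=
  if h : (legal G S).Nonempty then
    if dim then (legal G S).attach.inf' (by simpa using h)
      (fun v => value false (insert v.1 S))
    else (legal G S).attach.sup' (by simpa using h)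
      (fun v => value true (insert v.1 S))
  else S.card
termination_by Fintype.card V - S.card
decreasing_by
  · exact card_dec G v.2
  · exact card_dec G v.2

/-- `I_d(G)`: the final number of selected vertices when Diminisher moves first. -/
def Id : ℕ := value G true ∅

/-- `I_s(G)`: the final number of selected vertices when Sweller moves first. -/
def Is : ℕ := value G false ∅

end game

section comb

variable {V : Type*} [DecidableEq V] (G : SimpleGraph V) [DecidableRel G.Adj]

/-- neighbours of `v` inside `A` -/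
def nb (A : Finset V) (v : V) : Finset V := A.filter (fun u => G.Adj v u)
/-- degree of `v` inside `A` -/
def dg (A : Finset V) (v : V) : ℕ := (nb G A v).card
/-- the vertices of `A` that stay legal after the choice of `v` -/
def rmv (A : Finset V) (v : V) : Finset V := A.filter (fun u => u ≠ v ∧ ¬ G.Adj v u)
/-- the vertices that become isolated by the choice of `v` -/
def iso (A : Finset V) (v : V) : Finset V :=
  (rmv G A v).filter (fun x => dg G A x ≠ 0 ∧ dg G (rmv G A v) x = 0)
/-- leaves (in `A`) adjacent to `y`, other than `u` -/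
def lf (A : Finset V) (u y : V) : Finset V :=
  (nb G A y).filter (fun x => x ≠ u ∧ dg G A x = 1)
/-- centres of `P₃` components -/
def P3 (A : Finset V) : Finset V :=
  A.filter (fun x => dg G A x = 2 ∧ ∀ y ∈ nb G A x, dg G A y = 1)
/-- weight without the `P₃` discount -/
def ph0 (A : Finset V) : ℤ := ∑ v ∈ A, (if dg G A v = 0 then 20 else 11)
/-- the weight function -/
def phi (A : Finset V) : ℤ := ph0 G A - 3 * ((P3 G A).card : ℤ)

variable {G}

theorem mem_nb {A : Finset V} {v u : V} : u ∈ nb G A v ↔ u ∈ A ∧ G.Adj v u := by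
  simp [nb]

theorem mem_rmv {A : Finset V} {v u : V} : u ∈ rmv G A v ↔ u ∈ A ∧ u ≠ v ∧ ¬ G.Adj v u := by
  simp [rmv]

theorem mem_iso {A : Finset V} {v x : V} :
    x ∈ iso G A v ↔ x ∈ rmv G A v ∧ dg G A x ≠ 0 ∧ dg G (rmv G A v) x = 0 := by
  simp [iso]

theorem mem_lf {A : Finset V} {u y x : V} :
    x ∈ lf G A u y ↔ (x ∈ A ∧ G.Adj y x) ∧ x ≠ u ∧ dg G A x = 1 := by
  simp [lf, mem_nb]

theorem mem_P3 {A : Finset V} {x : V} :
    x ∈ P3 G A ↔ x ∈ A ∧ dg G A x = 2 ∧ ∀ y ∈ nb G A x, dg G A y = 1 := by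
  simp [P3]

theorem rmv_sub (A : Finset V) (v : V) : rmv G A v ⊆ A := filter_subset _ _

theorem nb_mono {A B : Finset V} (h : B ⊆ A) (v : V) : nb G B v ⊆ nb G A v :=
  filter_subset_filter _ h

theorem dg_mono {A B : Finset V} (h : B ⊆ A) (v : V) : dg G B v ≤ dg G A v :=
  card_le_card (nb_mono h v)

theorem dg_ne_zero {A : Finset V} {v u : V} (h : u ∈ nb G A v) : dg G A v ≠ 0 :=
  Finset.card_ne_zero_of_mem h

theorem uniq1 {A : Finset V} {x y z : V} (h : dg G A x = 1) (hy : y ∈ nb G A x)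
    (hz : z ∈ nb G A x) : y = z := by
  have := Finset.card_le_one.mp (le_of_eq h)
  exact this y hy z hz

theorem exists_nb {A : Finset V} {x : V} (h : dg G A x ≠ 0) : ∃ y, y ∈ nb G A x := by
  have : (nb G A x).Nonempty := Finset.card_pos.mp (Nat.pos_of_ne_zero h)
  exact this

theorem two_nb {A : Finset V} {x : V} (h : 2 ≤ dg G A x) :
    ∃ y ∈ nb G A x, ∃ z ∈ nb G A x, y ≠ z :=
  Finset.one_lt_card.mp h

/-- no cycles, in a convenient form -/
def NC (G : SimpleGraph V) : Prop :=
  ∀ S : Finset V, S.Nonempty →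
    (∀ v ∈ S, ∃ a ∈ S, ∃ b ∈ S, a ≠ b ∧ G.Adj v a ∧ G.Adj v b) → False

theorem no4 (hc : NC G) {v y x z : V} (h1 : G.Adj v y) (h2 : G.Adj v z) (h3 : G.Adj x y)
    (h4 : G.Adj x z) (hyz : y ≠ z) (hvx : v ≠ x) : False := by
  refine hc {v, y, x, z} ⟨v, by simp⟩ ?_
  intro w hw
  simp only [mem_insert, mem_singleton] at hw
  rcases hw with rfl | rfl | rfl | rfl
  · exact ⟨y, by simp, z, by simp, hyz, h1, h2⟩
  · exact ⟨v, by simp, x, by simp, hvx, h1.symm, h3.symm⟩
  · exact ⟨y, by simp, z, by simp, hyz, h3, h4⟩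
  · exact ⟨v, by simp, x, by simp, hvx, h2.symm, h4.symm⟩

theorem no3 (hc : NC G) {x y z : V} (h1 : G.Adj x y) (h2 : G.Adj y z) (h3 : G.Adj x z) : False := by
  refine hc {x, y, z} ⟨x, by simp⟩ ?_
  intro w hw
  simp only [mem_insert, mem_singleton] at hw
  rcases hw with rfl | rfl | rfl
  · exact ⟨y, by simp, z, by simp, h2.ne, h1, h3⟩
  · exact ⟨x, by simp, z, by simp, h3.ne, h1.symm, h2⟩
  · exact ⟨x, by simp, y, by simp, h1.ne, h3.symm, h2.symm⟩

/-- neighbours of a newly isolated vertex -/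
theorem iso_nb {A : Finset V} {v x y : V} (hx : x ∈ iso G A v) (hy : y ∈ nb G A x) :
    y ∈ nb G A v := by
  rw [mem_iso] at hx
  obtain ⟨hx1, hx2, hx3⟩ := hx
  rw [mem_rmv] at hx1
  rw [mem_nb] at hy ⊢
  refine ⟨hy.1, ?_⟩
  by_contra hcon
  have : y ∈ nb G (rmv G A v) x := by
    rw [mem_nb, mem_rmv]
    refine ⟨⟨hy.1, ?_, hcon⟩, hy.2⟩
    rintro rfl
    exact hx1.2.2 hy.2.symm
  exact dg_ne_zero this hx3

theorem iso_dg (hc : NC G) {A : Finset V} {v x : V} (hx : x ∈ iso G A v) : dg G A x = 1 := by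
  have h0 : dg G A x ≠ 0 := (mem_iso.mp hx).2.1
  by_contra h1
  obtain ⟨y, hy, z, hz, hyz⟩ := two_nb (G := G) (A := A) (x := x) (by omega)
  have hvx : v ≠ x := by
    have := (mem_rmv.mp (mem_iso.mp hx).1).2.1
    exact fun h => this h.symm
  exact no4 hc (mem_nb.mp (iso_nb hx hy)).2 (mem_nb.mp (iso_nb hx hz)).2
    (mem_nb.mp hy).2 (mem_nb.mp hz).2 hyz hvx

theorem iso_lf (hc : NC G) {A : Finset V} {v x : V} (hx : x ∈ iso G A v) :
    ∃ y ∈ nb G A v, x ∈ lf G A v y := by
  have h0 : dg G A x ≠ 0 := (mem_iso.mp hx).2.1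
  obtain ⟨y, hy⟩ := exists_nb h0
  have h1 := iso_nb hx hy
  refine ⟨y, h1, ?_⟩
  rw [mem_lf]
  have hx' := mem_rmv.mp (mem_iso.mp hx).1
  exact ⟨⟨hx'.1, (mem_nb.mp hy).2.symm⟩, hx'.2.1, iso_dg hc hx⟩

theorem iso_card_le (hc : NC G) (A : Finset V) (v : V) :
    (iso G A v).card ≤ ∑ y ∈ nb G A v, (lf G A v y).card := by
  refine le_trans (card_le_card ?_) card_biUnion_le
  intro x hx
  obtain ⟨y, hy, hxy⟩ := iso_lf hc hx
  exact mem_biUnion.mpr ⟨y, hy, hxy⟩

theorem lf_card_lt {A : Finset V} {v y : V} (hv : v ∈ A) (hy : y ∈ nb G A v) :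
    (lf G A v y).card + 1 ≤ dg G A y := by
  have hvy : v ∈ nb G A y := mem_nb.mpr ⟨hv, (mem_nb.mp hy).2.symm⟩
  have h1 : insert v (lf G A v y) ⊆ nb G A y := by
    intro x hx
    rw [mem_insert] at hx
    rcases hx with rfl | hx
    · exact hvy
    · rw [mem_lf] at hx
      exact mem_nb.mpr hx.1
  have h2 : v ∉ lf G A v y := by
    rw [mem_lf]
    intro h
    exact h.2.1 rfl
  have h3 := card_le_card h1
  rw [card_insert_of_notMem h2] at h3
  exact h3

theorem ph0_rmv {A : Finset V} {v : V} (hv : v ∈ A) :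
    ph0 G (rmv G A v) = ph0 G A - (if dg G A v = 0 then 20 else 11) - 11 * (dg G A v : ℤ)
      + 9 * ((iso G A v).card : ℤ) := by
  have hA : A = rmv G A v ∪ insert v (nb G A v) := by
    ext x
    simp only [mem_union, mem_rmv, mem_insert, mem_nb]
    constructor
    · intro hx
      by_cases h1 : x = v
      · exact Or.inr (Or.inl h1)
      · by_cases h2 : G.Adj v x
        · exact Or.inr (Or.inr ⟨hx, h2⟩)
        · exact Or.inl ⟨hx, h1, h2⟩
    · rintro (h | rfl | h)
      · exact h.1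
      · exact hv
      · exact h.1
  have hdis : Disjoint (rmv G A v) (insert v (nb G A v)) := by
    rw [Finset.disjoint_left]
    intro x hx hx'
    rw [mem_rmv] at hx
    rw [mem_insert, mem_nb] at hx'
    rcases hx' with h | h
    · exact hx.2.1 h
    · exact hx.2.2 h.2
  have hvn : v ∉ nb G A v := by
    rw [mem_nb]
    intro h
    exact G.loopless.irrefl v h.2
  have e1 : ph0 G A = ∑ x ∈ rmv G A v, (if dg G A x = 0 then (20:ℤ) else 11)
      + ((if dg G A v = 0 then 20 else 11) + ∑ x ∈ nb G A v, (if dg G A x = 0 then (20:ℤ) else 11)) := by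
    have q1 := sum_insert (f := fun x => if dg G A x = 0 then (20:ℤ) else 11) hvn
    have q2 := sum_union (f := fun x => if dg G A x = 0 then (20:ℤ) else 11) hdis
    rw [← hA] at q2
    unfold ph0
    rw [q2, q1]
  have e2 : ∑ x ∈ nb G A v, (if dg G A x = 0 then (20:ℤ) else 11) = 11 * (dg G A v : ℤ) := by
    rw [sum_congr rfl (g := fun _ => (11:ℤ))]
    · rw [sum_const, nsmul_eq_mul]
      simp only [dg]
      ring
    · intro x hx
      have : v ∈ nb G A x := mem_nb.mpr ⟨hv, (mem_nb.mp hx).2.symm⟩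
      rw [if_neg (dg_ne_zero this)]
  have e3 : ph0 G (rmv G A v) = ∑ x ∈ rmv G A v, (if dg G A x = 0 then (20:ℤ) else 11)
      + 9 * ((iso G A v).card : ℤ) := by
    have : (9:ℤ) * ((iso G A v).card : ℤ) = ∑ x ∈ rmv G A v,
        (if (dg G A x ≠ 0 ∧ dg G (rmv G A v) x = 0) then (9:ℤ) else 0) := by
      rw [← sum_filter, sum_const, nsmul_eq_mul]
      simp only [iso]
      ring
    rw [this, ← sum_add_distrib]
    unfold ph0
    refine sum_congr rfl ?_
    intro x hx
    have hm := dg_mono (G := G) (rmv_sub A v (G := G)) x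
    by_cases h1 : dg G (rmv G A v) x = 0
    · by_cases h2 : dg G A x = 0
      · simp [h1, h2]
      · simp [h1, h2]
    · have h2 : dg G A x ≠ 0 := by omega
      simp [h1, h2]
  rw [e3, e1, e2]
  ring

/-- persistence of `P3` centres -/
theorem P3_pers {A : Finset V} {v x : V} (hx : x ∈ P3 G A) (h1 : v ≠ x) (h2 : v ∉ nb G A x)
    (hv : v ∈ A) : x ∈ P3 G (rmv G A v) := by
  rw [mem_P3] at hx
  obtain ⟨hxA, hx2, hx3⟩ := hx
  have hnadj : ¬ G.Adj x v := fun h => h2 (mem_nb.mpr ⟨hv, h⟩)
  have hxr : x ∈ rmv G A v := mem_rmv.mpr ⟨hxA, fun h => h1 h.symm, fun h => hnadj h.symm⟩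
  have hnb : nb G (rmv G A v) x = nb G A x := by
    apply Subset.antisymm (nb_mono (rmv_sub A v) x)
    intro y hy
    rw [mem_nb, mem_rmv]
    have hy' := mem_nb.mp hy
    refine ⟨⟨hy'.1, ?_, ?_⟩, hy'.2⟩
    · rintro rfl
      exact hnadj hy'.2
    · intro h
      have a1 : v ∈ nb G A y := mem_nb.mpr ⟨hv, h.symm⟩
      have a2 : x ∈ nb G A y := mem_nb.mpr ⟨hxA, hy'.2.symm⟩
      exact h1 (uniq1 (hx3 y hy) a1 a2)
  rw [mem_P3]
  refine ⟨hxr, ?_, ?_⟩
  · unfold dg
    rw [hnb]
    exact hx2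
  · rw [hnb]
    intro y hy
    have b1 := hx3 y hy
    have b2 := dg_mono (G := G) (rmv_sub A v (G := G)) y
    have b3 : x ∈ nb G (rmv G A v) y := mem_nb.mpr ⟨hxr, (mem_nb.mp hy).2.symm⟩
    have b4 := dg_ne_zero b3
    omega

theorem P3_sub {A : Finset V} {v : V} (hv : v ∈ A) (h1 : v ∉ P3 G A) (h2 : dg G A v ≠ 1) :
    P3 G A ⊆ P3 G (rmv G A v) := by
  intro x hx
  refine P3_pers hx ?_ ?_ hv
  · rintro rfl
    exact h1 hx
  · intro h
    exact h2 ((mem_P3.mp hx).2.2 v h)

theorem P3_card {A : Finset V} {v : V} (hv : v ∈ A) :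
    (P3 G A).card ≤ (P3 G (rmv G A v)).card + 1 := by
  have key : (P3 G A \ P3 G (rmv G A v)).card ≤ 1 := by
    rw [Finset.card_le_one]
    intro x hx y hy
    rw [mem_sdiff] at hx hy
    have hx' : v = x ∨ v ∈ nb G A x := by
      by_contra hcon
      push Not at hcon
      exact hx.2 (P3_pers hx.1 hcon.1 hcon.2 hv)
    have hy' : v = y ∨ v ∈ nb G A y := by
      by_contra hcon
      push Not at hcon
      exact hy.2 (P3_pers hy.1 hcon.1 hcon.2 hv)
    have mx := mem_P3.mp hx.1
    have my := mem_P3.mp hy.1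
    rcases hx' with rfl | hx'
    · rcases hy' with rfl | hy'
      · rfl
      · have := my.2.2 v hy'
        omega
    · have d1 := mx.2.2 v hx'
      rcases hy' with rfl | hy'
      · omega
      · exact uniq1 d1 (mem_nb.mpr ⟨mx.1, (mem_nb.mp hx').2.symm⟩)
          (mem_nb.mpr ⟨my.1, (mem_nb.mp hy').2.symm⟩)
  have h2 := Finset.card_sdiff_add_card (P3 G A) (P3 G (rmv G A v))
  have h3 : (P3 G A).card ≤ (P3 G A ∪ P3 G (rmv G A v)).card := card_le_card subset_union_left
  omega

/-- the loss of Sweller-type moves: `phi (rmv) + 20 - phi`. -/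
theorem loss_zero (hc : NC G) {A : Finset V} {v : V} (hv : v ∈ A) (h0 : dg G A v = 0) :
    phi G (rmv G A v) + 20 ≤ phi G A := by
  have h1 := ph0_rmv (G := G) hv
  have h2 : (iso G A v).card = 0 := by
    have := iso_card_le hc A v
    have he : nb G A v = ∅ := Finset.card_eq_zero.mp h0
    rw [he] at this
    simpa using this
  have h3 : (P3 G A).card ≤ (P3 G (rmv G A v)).card := by
    apply card_le_card
    apply P3_sub hv
    · intro h
      have := (mem_P3.mp h).2.1
      omega
    · omega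
  rw [h0, h2] at h1
  simp only [if_true, Nat.cast_zero, mul_zero, sub_zero, add_zero] at h1
  unfold phi
  rw [h1]
  have h3' : ((P3 G A).card : ℤ) ≤ (P3 G (rmv G A v)).card := by exact_mod_cast h3
  linarith

theorem loss_eq {A : Finset V} {v : V} (hv : v ∈ A) (h0 : dg G A v ≠ 0) :
    phi G (rmv G A v) + 20 - phi G A = 9 - 11 * (dg G A v : ℤ) + 9 * ((iso G A v).card : ℤ)
      - 3 * ((P3 G (rmv G A v)).card : ℤ) + 3 * ((P3 G A).card : ℤ) := by
  have h1 := ph0_rmv (G := G) hv
  rw [if_neg h0] at h1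
  unfold phi
  rw [h1]
  ring

theorem loss_crude {A : Finset V} {v : V} (hv : v ∈ A) (h0 : dg G A v ≠ 0) :
    phi G (rmv G A v) + 20 - phi G A ≤ 12 - 11 * (dg G A v : ℤ) + 9 * ((iso G A v).card : ℤ) := by
  have h1 := loss_eq hv h0
  have h2 := P3_card (G := G) hv
  have h2' : ((P3 G A).card : ℤ) ≤ (P3 G (rmv G A v)).card + 1 := by exact_mod_cast h2
  linarith

theorem loss_fine {A : Finset V} {v : V} (hv : v ∈ A) (h0 : 2 ≤ dg G A v) (hP : v ∉ P3 G A) :
    phi G (rmv G A v) + 20 - phi G A ≤ 9 - 11 * (dg G A v : ℤ) + 9 * ((iso G A v).card : ℤ) := by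
  have h1 := loss_eq (G := G) hv (by omega)
  have h2 := card_le_card (P3_sub (G := G) hv hP (by omega))
  have h2' : ((P3 G A).card : ℤ) ≤ (P3 G (rmv G A v)).card := by exact_mod_cast h2
  linarith

theorem P3_iso (hc : NC G) {A : Finset V} {v : V} (hP : v ∈ P3 G A) : (iso G A v).card = 0 := by
  have h1 := iso_card_le hc A v
  have h2 : ∑ y ∈ nb G A v, (lf G A v y).card = 0 := by
    apply sum_eq_zero
    intro y hy
    have := lf_card_lt (mem_P3.mp hP).1 hy
    have := (mem_P3.mp hP).2.2 y hy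
    omega
  omega


/-- a subset `B` of `A` such that each removed non-isolated vertex has a removed neighbour -/
def Cl (G : SimpleGraph V) [DecidableRel G.Adj] (A B : Finset V) : Prop :=
  B ⊆ A ∧ ∀ x ∈ A, x ∉ B → dg G A x ≠ 0 → ∃ y ∈ nb G A x, y ∉ B

theorem cl_self (A : Finset V) : Cl G A A := by
  refine ⟨Subset.refl _, ?_⟩
  intro x hx hx'
  exact absurd hx hx'

theorem cl_rmv {A : Finset V} {v : V} (hv : v ∈ A) : Cl G A (rmv G A v) := by
  refine ⟨rmv_sub A v, ?_⟩
  intro x hx hxB h0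
  by_cases h : x = v
  · subst h
    obtain ⟨y, hy⟩ := exists_nb h0
    exact ⟨y, hy, fun hh => (mem_rmv.mp hh).2.2 (mem_nb.mp hy).2⟩
  · have h1 : G.Adj v x := by
      by_contra hcon
      exact hxB (mem_rmv.mpr ⟨hx, h, hcon⟩)
    exact ⟨v, mem_nb.mpr ⟨hv, h1.symm⟩, fun hh => (mem_rmv.mp hh).2.1 rfl⟩

theorem full (h3 : ∀ (A : Finset V) v, dg G A v ≤ 3) {B : Finset V} {u w : V} (hu : u ∈ B)
    (hw : w ∈ nb G B u) (h2 : (lf G B u w).card = 2) :
    dg G B w = 3 ∧ nb G B w = insert u (lf G B u w) := by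
  have huw : u ∈ nb G B w := mem_nb.mpr ⟨hu, (mem_nb.mp hw).2.symm⟩
  have h1 : insert u (lf G B u w) ⊆ nb G B w := by
    intro x hx
    rw [mem_insert] at hx
    rcases hx with rfl | hx
    · exact huw
    · rw [mem_lf] at hx
      exact mem_nb.mpr hx.1
  have h4 : u ∉ lf G B u w := by
    rw [mem_lf]
    intro h
    exact h.2.1 rfl
  have h5 : (insert u (lf G B u w)).card = 3 := by rw [card_insert_of_notMem h4, h2]
  have h6 : (nb G B w).card ≤ 3 := h3 B w
  have h7 : insert u (lf G B u w) = nb G B w := eq_of_subset_of_card_le h1 (by omega)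
  refine ⟨?_, h7.symm⟩
  unfold dg
  rw [← h7, h5]

theorem full_sub (h3 : ∀ (A : Finset V) v, dg G A v ≤ 3) {A B : Finset V} (hBA : B ⊆ A) {w : V}
    (h : dg G B w = 3) : nb G A w = nb G B w ∧ dg G A w = 3 := by
  have h1 : nb G B w = nb G A w := by
    apply eq_of_subset_of_card_le (nb_mono hBA w)
    have := h3 A w
    unfold dg at this h
    omega
  refine ⟨h1.symm, ?_⟩
  unfold dg
  rw [← h1]
  exact h

theorem keyL (h3 : ∀ (A : Finset V) v, dg G A v ≤ 3) {A B : Finset V} (hcl : Cl G A B)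
    {u w : V} (hu : u ∈ B) (hw : w ∈ nb G B u) (h2 : (lf G B u w).card = 2) :
    dg G A w = 3 ∧
      iso G A w ⊆ (nb G B u).filter (fun x => x ≠ w ∧ (lf G B u x).card = 0) := by
  obtain ⟨f1, f2⟩ := full h3 hu hw h2
  obtain ⟨f3, f4⟩ := full_sub h3 hcl.1 f1
  refine ⟨f4, ?_⟩
  intro x hx
  have hxr := mem_rmv.mp (mem_iso.mp hx).1
  have hx0 : dg G A x ≠ 0 := (mem_iso.mp hx).2.1
  have hxB : x ∈ B := by
    by_contra hcon
    obtain ⟨y, hy, hyB⟩ := hcl.2 x hxr.1 hcon hx0
    have := iso_nb hx hy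
    rw [f3] at this
    exact hyB (mem_nb.mp this).1
  have hall : ∀ y ∈ nb G A x, y = u := by
    intro y hy
    have h4 := iso_nb hx hy
    rw [f3, f2, mem_insert] at h4
    rcases h4 with h4 | h4
    · exact h4
    · exfalso
      rw [mem_lf] at h4
      have a1 : w ∈ nb G B y := mem_nb.mpr ⟨(mem_nb.mp hw).1, h4.1.2.symm⟩
      have a2 : x ∈ nb G B y := mem_nb.mpr ⟨hxB, (mem_nb.mp hy).2.symm⟩
      exact hxr.2.1 (uniq1 h4.2.2 a2 a1)
  obtain ⟨y, hy⟩ := exists_nb hx0
  have hyu := hall y hy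
  subst hyu
  rw [mem_filter]
  refine ⟨mem_nb.mpr ⟨hxB, (mem_nb.mp hy).2.symm⟩, hxr.2.1, ?_⟩
  rw [card_eq_zero, eq_empty_iff_forall_notMem]
  intro z hz
  rw [mem_lf] at hz
  exact hz.2.1 (hall z (mem_nb.mpr ⟨hcl.1 hz.1.1, hz.1.2⟩))

theorem lf_le_two (h3 : ∀ (A : Finset V) v, dg G A v ≤ 3) {B : Finset V} {u y : V} (hu : u ∈ B)
    (hy : y ∈ nb G B u) : (lf G B u y).card ≤ 2 := by
  have h1 := lf_card_lt hu hy
  have h2 := h3 B y
  omega

theorem iso_le (hc : NC G) (h3 : ∀ (A : Finset V) v, dg G A v ≤ 3) {B : Finset V} {u : V}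
    (hu : u ∈ B) : (iso G B u).card ≤ 2 * dg G B u := by
  refine le_trans (iso_card_le hc B u) ?_
  have := Finset.sum_le_card_nsmul (nb G B u) (fun y => (lf G B u y).card) 2
    (fun y hy => lf_le_two h3 hu hy)
  refine le_trans this ?_
  simp only [smul_eq_mul, dg]
  omega

theorem LB (hc : NC G) (h3 : ∀ (A : Finset V) v, dg G A v ≤ 3) {A B : Finset V}
    (hcl : Cl G A B) (k : ℕ) (hk : ∀ w ∈ A, dg G A w = 3 → k ≤ (iso G A w).card) {u : V}
    (hu : u ∈ B) :
    (iso G B u).card ≤ dg G B u ∨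
      ((iso G B u).card + 2 * k ≤ 2 * dg G B u ∧ k + 1 ≤ dg G B u) := by
  by_cases hex : ∃ w ∈ nb G B u, (lf G B u w).card = 2
  · right
    obtain ⟨w, hw, hw2⟩ := hex
    obtain ⟨g1, g2⟩ := keyL h3 hcl hu hw hw2
    have g3 := hk w (hcl.1 (mem_nb.mp hw).1) g1
    set Z := (nb G B u).filter (fun x => x ≠ w ∧ (lf G B u x).card = 0) with hZ
    have g4 : k ≤ Z.card := le_trans g3 (card_le_card g2)
    have g5 : Z ⊆ (nb G B u).erase w := by
      intro x hx
      rw [hZ, mem_filter] at hx
      exact mem_erase.mpr ⟨hx.2.1, hx.1⟩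
    have g6 : Z.card + 1 ≤ (nb G B u).card := by
      have := card_le_card g5
      rw [card_erase_of_mem hw] at this
      have hpos : 0 < (nb G B u).card := card_pos.mpr ⟨w, hw⟩
      omega
    have g7 : Z ⊆ nb G B u := filter_subset _ _
    have g8 := Finset.sum_sdiff (f := fun y => (lf G B u y).card) g7
    have g9 : ∑ y ∈ Z, (lf G B u y).card = 0 := by
      apply sum_eq_zero
      intro y hy
      rw [hZ, mem_filter] at hy
      exact hy.2.2
    have g10 : ∑ y ∈ nb G B u \ Z, (lf G B u y).card ≤ (nb G B u \ Z).card • 2 :=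
      Finset.sum_le_card_nsmul _ _ _ (fun y hy => lf_le_two h3 hu (mem_sdiff.mp hy).1)
    have g11 : (nb G B u \ Z).card = (nb G B u).card - Z.card := card_sdiff_of_subset g7
    have g12 := iso_card_le hc B u
    simp only [smul_eq_mul] at g10
    unfold dg
    constructor
    · have : (iso G B u).card ≤ ((nb G B u).card - Z.card) * 2 := by
        rw [← g11]
        omega
      omega
    · omega
  · left
    refine le_trans (iso_card_le hc B u) ?_
    have := Finset.sum_le_card_nsmul (nb G B u) (fun y => (lf G B u y).card) 1 (by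
      intro y hy
      have a1 := lf_le_two h3 hu hy
      have a2 : (lf G B u y).card ≠ 2 := fun h => hex ⟨y, hy, h⟩
      omega)
    refine le_trans this ?_
    simp only [smul_eq_mul, dg]
    omega

/-- centre of a `T10` component -/
def TC (G : SimpleGraph V) [DecidableRel G.Adj] (B : Finset V) (u : V) : Prop :=
  dg G B u = 3 ∧ ∀ y ∈ nb G B u, (lf G B u y).card = 2

theorem loss_nonTC (hc : NC G) (h3 : ∀ (A : Finset V) v, dg G A v ≤ 3) {B : Finset V} {u : V}
    (hu : u ∈ B) (hT : ¬ TC G B u) : phi G (rmv G B u) + 20 - phi G B ≤ 24 := by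
  have hi := iso_le hc h3 hu
  have hd := h3 B u
  by_cases h0 : dg G B u = 0
  · have := loss_zero hc hu h0
    linarith
  by_cases hP : u ∈ P3 G B
  · have h1 := P3_iso hc hP
    have h2 := loss_crude hu h0
    have h4 := (mem_P3.mp hP).2.1
    rw [h1, h4] at h2
    norm_num at h2
    linarith
  by_cases h1 : dg G B u = 1
  · have h2 := loss_crude hu h0
    rw [h1] at h2 hi
    have : ((iso G B u).card : ℤ) ≤ 2 := by exact_mod_cast hi
    push_cast at h2
    linarith
  have h5 := loss_fine hu (by omega) hP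
  by_cases h2 : dg G B u = 2
  · rw [h2] at h5 hi
    have : ((iso G B u).card : ℤ) ≤ 4 := by exact_mod_cast hi
    push_cast at h5
    linarith
  · have h33 : dg G B u = 3 := by omega
    have h6 : (iso G B u).card ≤ 5 := by
      have h7 : ∃ y ∈ nb G B u, (lf G B u y).card ≠ 2 := by
        by_contra hcon
        push Not at hcon
        exact hT ⟨h33, hcon⟩
      obtain ⟨y, hy, hy2⟩ := h7
      have h8 := iso_card_le hc B u
      have h9 := Finset.sum_erase_add (nb G B u) (fun y => (lf G B u y).card) hy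
      have h10 : ∑ y ∈ (nb G B u).erase y, (lf G B u y).card ≤ ((nb G B u).erase y).card • 2 :=
        Finset.sum_le_card_nsmul _ _ _ (fun y hy => lf_le_two h3 hu (mem_erase.mp hy).2)
      have h11 : ((nb G B u).erase y).card = 2 := by
        rw [card_erase_of_mem hy]
        have : (nb G B u).card = 3 := h33
        omega
      rw [h11] at h10
      have h12 := lf_le_two h3 hu hy
      simp only [smul_eq_mul] at h10
      omega
    rw [h33] at h5
    have : ((iso G B u).card : ℤ) ≤ 5 := by exact_mod_cast h6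
    push_cast at h5
    linarith

theorem loss_any (hc : NC G) (h3 : ∀ (A : Finset V) v, dg G A v ≤ 3) {B : Finset V} {u : V}
    (hu : u ∈ B) : phi G (rmv G B u) + 20 - phi G B ≤ 30 := by
  by_cases hT : TC G B u
  · have h0 : dg G B u ≠ 0 := by
      have := hT.1
      omega
    have hP : u ∉ P3 G B := by
      intro h
      have h1 := (mem_P3.mp h).2.1
      have h2 := hT.1
      omega
    have h5 := loss_fine hu (by have := hT.1; omega) hP
    have hi := iso_le hc h3 hu
    rw [hT.1] at h5 hi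
    have : ((iso G B u).card : ℤ) ≤ 6 := by exact_mod_cast hi
    push_cast at h5
    linarith
  · have := loss_nonTC hc h3 hu hT
    linarith

theorem newP3 (hc : NC G) (h3 : ∀ (A : Finset V) v, dg G A v ≤ 3) {A : Finset V} {u m m' : V}
    (hu : u ∈ A) (hm : m ∈ nb G A u) (hm' : m' ∈ nb G A u) (hne : m ≠ m') (hd : dg G A m ≠ 1)
    (h2 : (lf G A u m').card = 2) : m' ∈ P3 G (rmv G A m) ∧ m' ∉ P3 G A := by
  obtain ⟨f1, f2⟩ := full h3 hu hm' h2
  have hmA := (mem_nb.mp hm).1
  have hm'r : m' ∈ rmv G A m := by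
    rw [mem_rmv]
    refine ⟨(mem_nb.mp hm').1, fun h => hne h.symm, ?_⟩
    intro h
    exact no3 hc (mem_nb.mp hm).2 h (mem_nb.mp hm').2
  have hlf : ∀ x ∈ lf G A u m', x ∈ rmv G A m ∧ dg G (rmv G A m) x = 1 := by
    intro x hx
    have hx' := mem_lf.mp hx
    have a1 : x ≠ m := by
      rintro rfl
      exact hd hx'.2.2
    have a0 : m' ∈ nb G A x := mem_nb.mpr ⟨(mem_nb.mp hm').1, hx'.1.2.symm⟩
    have a2 : ¬ G.Adj m x := by
      intro h
      exact hne (uniq1 hx'.2.2 (mem_nb.mpr ⟨hmA, h.symm⟩) a0)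
    refine ⟨mem_rmv.mpr ⟨hx'.1.1, a1, a2⟩, ?_⟩
    have b1 := dg_mono (G := G) (rmv_sub A m (G := G)) x
    have b2 : m' ∈ nb G (rmv G A m) x := mem_nb.mpr ⟨hm'r, hx'.1.2.symm⟩
    have b3 := dg_ne_zero b2
    have b4 := hx'.2.2
    omega
  have hnb : nb G (rmv G A m) m' = lf G A u m' := by
    ext x
    constructor
    · intro hx
      have h4 := nb_mono (rmv_sub A m) m' hx
      rw [f2, mem_insert] at h4
      rcases h4 with rfl | h4
      · exfalso
        exact (mem_rmv.mp (mem_nb.mp hx).1).2.2 (mem_nb.mp hm).2.symm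
      · exact h4
    · intro hx
      exact mem_nb.mpr ⟨(hlf x hx).1, (mem_lf.mp hx).1.2⟩
  constructor
  · rw [mem_P3]
    refine ⟨hm'r, ?_, ?_⟩
    · unfold dg
      rw [hnb, h2]
    · rw [hnb]
      intro y hy
      exact (hlf y hy).2
  · intro h
    have := (mem_P3.mp h).2.1
    omega

/-- Regime 1 (a): a `T10` component exists. -/
theorem regime1a (hc : NC G) (h3 : ∀ (A : Finset V) v, dg G A v ≤ 3) {A : Finset V} {u : V}
    (hu : u ∈ A) (hT : TC G A u) : ∃ v ∈ A, phi G (rmv G A v) + 20 ≤ phi G A ∧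
      ∀ w ∈ rmv G A v, phi G (rmv G (rmv G A v) w) + 40 ≤ phi G A := by
  obtain ⟨m, a, b, hma, hmb, hab, hset⟩ := Finset.card_eq_three.mp hT.1
  have hm : m ∈ nb G A u := by rw [hset]; simp
  have ha : a ∈ nb G A u := by rw [hset]; simp
  have hb : b ∈ nb G A u := by rw [hset]; simp
  obtain ⟨g1, g2⟩ := keyL h3 (cl_self A) hu hm (hT.2 m hm)
  have hiso : (iso G A m).card = 0 := by
    rw [card_eq_zero, eq_empty_iff_forall_notMem]
    intro x hx
    have := g2 hx
    rw [mem_filter] at this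
    have h5 := hT.2 x this.1
    omega
  obtain ⟨pa1, pa2⟩ := newP3 hc h3 hu hm ha hma (by omega) (hT.2 a ha)
  obtain ⟨pb1, pb2⟩ := newP3 hc h3 hu hm hb hmb (by omega) (hT.2 b hb)
  have hmA := (mem_nb.mp hm).1
  have hmP : m ∉ P3 G A := by
    intro h
    have := (mem_P3.mp h).2.1
    omega
  have hsub : insert a (insert b (P3 G A)) ⊆ P3 G (rmv G A m) := by
    intro x hx
    rw [mem_insert, mem_insert] at hx
    rcases hx with rfl | rfl | hx
    · exact pa1
    · exact pb1
    · exact P3_sub hmA hmP (by omega) hx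
  have hcard : (P3 G A).card + 2 ≤ (P3 G (rmv G A m)).card := by
    have h5 := card_le_card hsub
    rw [card_insert_of_notMem, card_insert_of_notMem pb2] at h5
    · omega
    · rw [mem_insert]
      rintro (h | h)
      · exact hab h
      · exact pa2 h
  have hcard' : ((P3 G A).card : ℤ) + 2 ≤ (P3 G (rmv G A m)).card := by exact_mod_cast hcard
  have hl := loss_eq (G := G) hmA (by omega)
  rw [g1, hiso] at hl
  push_cast at hl
  refine ⟨m, hmA, by linarith, ?_⟩
  intro w hw
  have := loss_any hc h3 hw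
  linarith


/-- at most one bad mid vertex of a new `T10` component -/
theorem bad_unique (hc : NC G) {A : Finset V} {w u m m' l l' : V}
    (hm : m ∈ nb G (rmv G A w) u) (hm' : m' ∈ nb G (rmv G A w) u) (hne : m ≠ m')
    (hl : l ∈ lf G (rmv G A w) u m) (hl' : l' ∈ lf G (rmv G A w) u m')
    (hdl : dg G A l ≠ 1) (hdl' : dg G A l' ≠ 1) (hw : w ∈ A) : False := by
  have aux : ∀ (l m : V), l ∈ lf G (rmv G A w) u m → m ∈ nb G (rmv G A w) u → dg G A l ≠ 1 →
      ∃ y, G.Adj w y ∧ G.Adj y l ∧ y ∉ rmv G A w := by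
    intro l m hl hm hdl
    have hl1 := mem_lf.mp hl
    have hmB := (mem_nb.mp hm).1
    have h1 : nb G (rmv G A w) l ≠ nb G A l := by
      intro h
      have : dg G (rmv G A w) l = dg G A l := by unfold dg; rw [h]
      have := hl1.2.2
      omega
    have h2 : ∃ y ∈ nb G A l, y ∉ nb G (rmv G A w) l := by
      by_contra hcon
      push Not at hcon
      exact h1 (Subset.antisymm (nb_mono (rmv_sub A w) l) hcon)
    obtain ⟨y, hy, hy2⟩ := h2
    have hy' := mem_nb.mp hy
    have hyn : y ∉ rmv G A w := fun h => hy2 (mem_nb.mpr ⟨h, hy'.2⟩)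
    have hyw : y ≠ w := by
      rintro rfl
      exact (mem_rmv.mp hl1.1.1).2.2 hy'.2.symm
    refine ⟨y, ?_, hy'.2.symm, hyn⟩
    by_contra hcon
    exact hyn (mem_rmv.mpr ⟨hy'.1, hyw, hcon⟩)
  obtain ⟨y, hy1, hy2, hy3⟩ := aux l m hl hm hdl
  obtain ⟨y', hy1', hy2', hy3'⟩ := aux l' m' hl' hm' hdl'
  have hlm := mem_lf.mp hl
  have hlm' := mem_lf.mp hl'
  have hum := (mem_nb.mp hm).2
  have hum' := (mem_nb.mp hm').2
  have hmB := (mem_nb.mp hm).1
  have hmB' := (mem_nb.mp hm').1
  have hwB : w ∉ rmv G A w := fun h => (mem_rmv.mp h).2.1 rfl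
  have ne1 : m ≠ y := fun h => hy3 (h ▸ hmB)
  have ne1' : m' ≠ y' := fun h => hy3' (h ▸ hmB')
  have ne2 : l ≠ w := fun h => hwB (h ▸ hlm.1.1)
  have ne2' : l' ≠ w := fun h => hwB (h ▸ hlm'.1.1)
  have hll : l ≠ l' := by
    rintro rfl
    exact hne (uniq1 hlm.2.2 (mem_nb.mpr ⟨hmB, hlm.1.2.symm⟩)
      (mem_nb.mpr ⟨hmB', hlm'.1.2.symm⟩))
  by_cases hyy : y = y'
  · subst hyy
    refine hc {u, m, l, y, l', m'} ⟨u, by simp⟩ ?_
    intro z hz
    simp only [mem_insert, mem_singleton] at hz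
    rcases hz with rfl | rfl | rfl | rfl | rfl | rfl
    · exact ⟨m, by simp, m', by simp, hne, hum, hum'⟩
    · exact ⟨u, by simp, l, by simp, fun h => hlm.2.1 h.symm, hum.symm, hlm.1.2⟩
    · exact ⟨m, by simp, y, by simp, ne1, hlm.1.2.symm, hy2.symm⟩
    · exact ⟨l, by simp, l', by simp, hll, hy2, hy2'⟩
    · exact ⟨m', by simp, y, by simp, ne1', hlm'.1.2.symm, hy2'.symm⟩
    · exact ⟨u, by simp, l', by simp, fun h => hlm'.2.1 h.symm, hum'.symm, hlm'.1.2⟩
  · refine hc {u, m, l, y, w, y', l', m'} ⟨u, by simp⟩ ?_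
    intro z hz
    simp only [mem_insert, mem_singleton] at hz
    rcases hz with rfl | rfl | rfl | rfl | rfl | rfl | rfl | rfl
    · exact ⟨m, by simp, m', by simp, hne, hum, hum'⟩
    · exact ⟨u, by simp, l, by simp, fun h => hlm.2.1 h.symm, hum.symm, hlm.1.2⟩
    · exact ⟨m, by simp, y, by simp, ne1, hlm.1.2.symm, hy2.symm⟩
    · exact ⟨l, by simp, w, by simp, ne2, hy2, hy1.symm⟩
    · exact ⟨y, by simp, y', by simp, hyy, hy1, hy1'⟩
    · exact ⟨l', by simp, w, by simp, ne2', hy2', hy1'.symm⟩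
    · exact ⟨m', by simp, y', by simp, ne1', hlm'.1.2.symm, hy2'.symm⟩
    · exact ⟨u, by simp, l', by simp, fun h => hlm'.2.1 h.symm, hum'.symm, hlm'.1.2⟩

/-- Regime 1 (b), (c). -/
theorem regime1 (hc : NC G) (h3 : ∀ (A : Finset V) v, dg G A v ≤ 3) {A : Finset V}
    (hnT : ∀ u ∈ A, ¬ TC G A u) {w0 : V} (hw0 : w0 ∈ A) (hd0 : dg G A w0 = 3)
    (hi0 : (iso G A w0).card = 0) : ∃ v ∈ A, phi G (rmv G A v) + 20 ≤ phi G A ∧
      ∀ w ∈ rmv G A v, phi G (rmv G (rmv G A v) w) + 40 ≤ phi G A := by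
  by_cases hT : ∃ u ∈ rmv G A w0, TC G (rmv G A w0) u
  · obtain ⟨u, huB, hTu⟩ := hT
    have huA := rmv_sub A w0 huB
    -- the mids
    have hnbu : nb G A u = nb G (rmv G A w0) u := (full_sub h3 (rmv_sub A w0) hTu.1).1
    set bad := (nb G (rmv G A w0) u).filter (fun m => ∃ l ∈ lf G (rmv G A w0) u m, dg G A l ≠ 1)
      with hbad
    have hbad1 : bad.card ≤ 1 := by
      rw [card_le_one]
      intro m hm m' hm'
      by_contra hne
      rw [hbad, mem_filter] at hm hm'
      obtain ⟨hm1, l, hl, hdl⟩ := hm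
      obtain ⟨hm1', l', hl', hdl'⟩ := hm'
      exact bad_unique hc hm1 hm1' hne hl hl' hdl hdl' hw0
    have hgood : 1 < ((nb G (rmv G A w0) u) \ bad).card := by
      have hsb : bad ⊆ nb G (rmv G A w0) u := filter_subset _ _
      rw [card_sdiff_of_subset hsb]
      have := hTu.1
      unfold dg at this
      omega
    obtain ⟨m, hm, m', hm', hne⟩ := one_lt_card.mp hgood
    have good : ∀ m ∈ (nb G (rmv G A w0) u) \ bad, m ∈ nb G A u ∧ (lf G A u m).card = 2 := by
      intro m hm
      rw [mem_sdiff] at hm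
      have hm2 : ∀ l ∈ lf G (rmv G A w0) u m, dg G A l = 1 := by
        intro l hl
        by_contra hcon
        exact hm.2 (by rw [hbad, mem_filter]; exact ⟨hm.1, l, hl, hcon⟩)
      have hmA : m ∈ nb G A u := by rw [hnbu]; exact hm.1
      refine ⟨hmA, le_antisymm (lf_le_two h3 huA hmA) ?_⟩
      rw [← hTu.2 m hm.1]
      apply card_le_card
      intro l hl
      have h5 := mem_lf.mp hl
      rw [mem_lf]
      exact ⟨⟨rmv_sub A w0 h5.1.1, h5.1.2⟩, h5.2.1, hm2 l hl⟩
    obtain ⟨hmA, hml⟩ := good m hm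
    obtain ⟨hmA', hml'⟩ := good m' hm'
    have hmB := (mem_sdiff.mp hm).1
    obtain ⟨g1, g2⟩ := keyL h3 (cl_rmv hw0) huB hmB (hTu.2 m hmB)
    have hiso : (iso G A m).card = 0 := by
      rw [card_eq_zero, eq_empty_iff_forall_notMem]
      intro x hx
      have := g2 hx
      rw [mem_filter] at this
      have h5 := hTu.2 x this.1
      omega
    obtain ⟨pa1, pa2⟩ := newP3 hc h3 huA hmA hmA' hne (by omega) hml'
    have hmAA := (mem_nb.mp hmA).1
    have hmP : m ∉ P3 G A := by
      intro h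
      have := (mem_P3.mp h).2.1
      omega
    have hsub : insert m' (P3 G A) ⊆ P3 G (rmv G A m) := by
      intro x hx
      rw [mem_insert] at hx
      rcases hx with rfl | hx
      · exact pa1
      · exact P3_sub hmAA hmP (by omega) hx
    have hcard : (P3 G A).card + 1 ≤ (P3 G (rmv G A m)).card := by
      have h5 := card_le_card hsub
      rw [card_insert_of_notMem pa2] at h5
      exact h5
    have hcard' : ((P3 G A).card : ℤ) + 1 ≤ (P3 G (rmv G A m)).card := by exact_mod_cast hcard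
    have hl := loss_eq (G := G) hmAA (by omega)
    rw [g1, hiso] at hl
    push_cast at hl
    refine ⟨m, hmAA, by linarith, ?_⟩
    -- no T10 centre after the move m
    have hnoT : ∀ u' ∈ rmv G A m, ¬ TC G (rmv G A m) u' := by
      intro u' hu' hTu'
      have hu'A := rmv_sub A m hu'
      obtain ⟨hnb', hd'⟩ := full_sub h3 (rmv_sub A m) hTu'.1
      have hex : ∃ y ∈ nb G A u', (lf G A u' y).card ≠ 2 := by
        by_contra hcon
        push Not at hcon
        exact hnT u' hu'A ⟨hd', hcon⟩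
      obtain ⟨y, hy, hy2⟩ := hex
      have hyB : y ∈ nb G (rmv G A m) u' := by rw [← hnb']; exact hy
      have hlfB := hTu'.2 y hyB
      have hex2 : ∃ l ∈ lf G (rmv G A m) u' y, dg G A l ≠ 1 := by
        by_contra hcon
        push Not at hcon
        apply hy2
        refine le_antisymm (lf_le_two h3 hu'A hy) ?_
        rw [← hlfB]
        apply card_le_card
        intro l hl
        have h5 := mem_lf.mp hl
        rw [mem_lf]
        exact ⟨⟨rmv_sub A m h5.1.1, h5.1.2⟩, h5.2.1, hcon l hl⟩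
      obtain ⟨l, hl, hdl⟩ := hex2
      have hl1 := mem_lf.mp hl
      have hlr := mem_rmv.mp hl1.1.1
      have h6 : ∃ t ∈ nb G A l, t ∉ nb G (rmv G A m) l := by
        by_contra hcon
        push Not at hcon
        have h7 : nb G (rmv G A m) l = nb G A l := Subset.antisymm (nb_mono (rmv_sub A m) l) hcon
        apply hdl
        unfold dg
        rw [← h7]
        exact hl1.2.2
      obtain ⟨t, ht, ht2⟩ := h6
      have ht' := mem_nb.mp ht
      have htr : t ∉ rmv G A m := fun h => ht2 (mem_nb.mpr ⟨h, ht'.2⟩)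
      have htm : t ≠ m := by
        rintro rfl
        exact hlr.2.2 ht'.2.symm
      have hmt : G.Adj m t := by
        by_contra hcon
        exact htr (mem_rmv.mpr ⟨ht'.1, htm, hcon⟩)
      have htnb : t ∈ nb G A m := mem_nb.mpr ⟨ht'.1, hmt⟩
      rw [(full h3 huA hmA hml).2, mem_insert] at htnb
      rcases htnb with rfl | htl
      · -- t = u, so l is a neighbour of u
        have hlu : l ∈ nb G A t := mem_nb.mpr ⟨hlr.1, ht'.2.symm⟩
        rw [hnbu] at hlu
        have h8 := hTu.2 l hlu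
        have h9 : lf G (rmv G A w0) t l ⊆ nb G (rmv G A m) l := by
          intro x hx
          have hx1 := mem_lf.mp hx
          have hxA := rmv_sub A w0 hx1.1.1
          rw [mem_nb, mem_rmv]
          refine ⟨⟨hxA, ?_, ?_⟩, hx1.1.2⟩
          · rintro rfl
            have := (full h3 huB hmB (hTu.2 x hmB)).1
            omega
          · intro hmx
            have b1 : m ∈ nb G (rmv G A w0) x := mem_nb.mpr ⟨(mem_nb.mp hmB).1, hmx.symm⟩
            have b2 : l ∈ nb G (rmv G A w0) x := mem_nb.mpr ⟨(mem_nb.mp hlu).1, hx1.1.2.symm⟩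
            exact hlr.2.1 (uniq1 hx1.2.2 b2 b1)
        have h10 := card_le_card h9
        have h11 := hl1.2.2
        unfold dg at h11
        omega
      · have ht1 := mem_lf.mp htl
        have b1 : m ∈ nb G A t := mem_nb.mpr ⟨hmAA, hmt.symm⟩
        have b2 : l ∈ nb G A t := mem_nb.mpr ⟨hlr.1, ht'.2.symm⟩
        exact hlr.2.1 (uniq1 ht1.2.2 b2 b1)
    intro w hw
    have := loss_nonTC hc h3 hw (hnoT w hw)
    linarith
  · push Not at hT
    have hP : w0 ∉ P3 G A := by
      intro h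
      have := (mem_P3.mp h).2.1
      omega
    have hl := loss_fine hw0 (by omega) hP
    rw [hd0, hi0] at hl
    push_cast at hl
    refine ⟨w0, hw0, by linarith, ?_⟩
    intro w hw
    have := loss_nonTC hc h3 hw (hT w hw)
    linarith

/-- Regime 2. -/
theorem regime2 (hc : NC G) (h3 : ∀ (A : Finset V) v, dg G A v ≤ 3) {A : Finset V}
    (h1 : ∀ w ∈ A, dg G A w = 3 → 1 ≤ (iso G A w).card) {w0 : V} (hw0 : w0 ∈ A)
    (hd0 : dg G A w0 = 3)
    (hi0 : (iso G A w0).card ≤ 1) : ∃ v ∈ A, phi G (rmv G A v) + 20 ≤ phi G A ∧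
      ∀ w ∈ rmv G A v, phi G (rmv G (rmv G A v) w) + 40 ≤ phi G A := by
  have hP : w0 ∉ P3 G A := by
    intro h
    have := (mem_P3.mp h).2.1
    omega
  have hl := loss_fine hw0 (by omega) hP
  rw [hd0] at hl
  have hi0' : ((iso G A w0).card : ℤ) ≤ 1 := by exact_mod_cast hi0
  push_cast at hl
  refine ⟨w0, hw0, by linarith, ?_⟩
  intro w hw
  have hd := h3 (rmv G A w0) w
  have hb := LB hc h3 (cl_rmv hw0) 1 h1 hw
  by_cases h0 : dg G (rmv G A w0) w = 0
  · have := loss_zero hc hw h0
    linarith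
  have hcr := loss_crude hw h0
  have hb' : (-11 : ℤ) * (dg G (rmv G A w0) w : ℤ) + 9 * ((iso G (rmv G A w0) w).card : ℤ) ≤ 3 := by
    omega
  linarith

/-- Regime 3 with a `(2,0)` vertex. -/
theorem regime3a (hc : NC G) (h3 : ∀ (A : Finset V) v, dg G A v ≤ 3) {A : Finset V}
    (h1 : ∀ w ∈ A, dg G A w = 3 → 2 ≤ (iso G A w).card) {w0 : V} (hw0 : w0 ∈ A)
    (hd0 : dg G A w0 = 2)
    (hi0 : (iso G A w0).card = 0) : ∃ v ∈ A, phi G (rmv G A v) + 20 ≤ phi G A ∧
      ∀ w ∈ rmv G A v, phi G (rmv G (rmv G A v) w) + 40 ≤ phi G A := by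
  have hl := loss_crude (G := G) hw0 (by omega)
  rw [hd0, hi0] at hl
  push_cast at hl
  refine ⟨w0, hw0, by linarith, ?_⟩
  intro w hw
  have hd := h3 (rmv G A w0) w
  have hb := LB hc h3 (cl_rmv hw0) 2 h1 hw
  by_cases h0 : dg G (rmv G A w0) w = 0
  · have := loss_zero hc hw h0
    linarith
  have hcr := loss_crude hw h0
  have hb' : (-11 : ℤ) * (dg G (rmv G A w0) w : ℤ) + 9 * ((iso G (rmv G A w0) w).card : ℤ)
      ≤ -2 := by
    omega
  linarith


theorem cl_iso {A B : Finset V} (hcl : Cl G A B) {w x : V} (hw : nb G A w ⊆ B)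
    (hx : x ∈ iso G A w) : x ∈ B := by
  by_contra hcon
  obtain ⟨y, hy, hyB⟩ := hcl.2 x (mem_rmv.mp (mem_iso.mp hx).1).1 hcon (mem_iso.mp hx).2.1
  exact hyB (hw (iso_nb hx hy))

/-- In regime 3 without `(2,0)` vertices, no `P3` component appears after a degree 3 move. -/
theorem noP3 (hc : NC G) (h3 : ∀ (A : Finset V) v, dg G A v ≤ 3) {A : Finset V}
    (h1 : ∀ w ∈ A, dg G A w = 3 → 2 ≤ (iso G A w).card)
    (h2 : ∀ w ∈ A, dg G A w = 2 → 1 ≤ (iso G A w).card) {v : V} (hv : v ∈ A)
    (hd : dg G A v = 3) : P3 G (rmv G A v) = ∅ := by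
  rw [eq_empty_iff_forall_notMem]
  intro x hx
  obtain ⟨hxB, hx2, hx3⟩ := mem_P3.mp hx
  have hxA := rmv_sub A v hxB
  have hxv := mem_rmv.mp hxB
  have hm := dg_mono (G := G) (rmv_sub A v (G := G)) x
  have hle := h3 A x
  by_cases hA2 : dg G A x = 2
  · have hnb : nb G (rmv G A v) x = nb G A x := by
      apply eq_of_subset_of_card_le (nb_mono (rmv_sub A v) x)
      unfold dg at hA2 hx2
      omega
    have := h2 x hxA hA2
    obtain ⟨z, hz⟩ := card_pos.mp (by omega : 0 < (iso G A x).card)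
    have hzB : z ∈ rmv G A v := by
      apply cl_iso (cl_rmv hv) _ hz
      rw [← hnb]
      exact filter_subset _ _
    obtain ⟨y, hy⟩ := exists_nb (mem_iso.mp hz).2.1
    have hy2 := iso_nb hz hy
    rw [← hnb] at hy2
    have a1 : x ∈ nb G (rmv G A v) y := mem_nb.mpr ⟨hxB, (mem_nb.mp hy2).2.symm⟩
    have a2 : z ∈ nb G (rmv G A v) y := mem_nb.mpr ⟨hzB, (mem_nb.mp hy).2.symm⟩
    exact (mem_rmv.mp (mem_iso.mp hz).1).2.1 (uniq1 (hx3 y hy2) a2 a1)
  · have hA3 : dg G A x = 3 := by omega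
    have hcard : (nb G A x \ nb G (rmv G A v) x).card = 1 := by
      rw [card_sdiff_of_subset (nb_mono (rmv_sub A v) x)]
      unfold dg at hA3 hx2
      omega
    obtain ⟨t, ht⟩ := card_eq_one.mp hcard
    have ht1 : t ∈ nb G A x \ nb G (rmv G A v) x := by rw [ht]; simp
    rw [mem_sdiff] at ht1
    have htx := mem_nb.mp ht1.1
    have htB : t ∉ rmv G A v := fun h => ht1.2 (mem_nb.mpr ⟨h, htx.2⟩)
    have htv : t ≠ v := by
      rintro rfl
      exact hxv.2.2 htx.2.symm
    have hvt : G.Adj v t := by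
      by_contra hcon
      exact htB (mem_rmv.mpr ⟨htx.1, htv, hcon⟩)
    have hsub : iso G A x ⊆ ((nb G A t).erase x).erase v := by
      intro z hz
      have hzr := mem_rmv.mp (mem_iso.mp hz).1
      have hzv : z ≠ v := by
        rintro rfl
        obtain ⟨y, hy, y', hy', hyy⟩ := two_nb (G := G) (A := A) (x := z) (by omega)
        exact no4 hc (mem_nb.mp hy).2 (mem_nb.mp hy').2 (mem_nb.mp (iso_nb hz hy)).2
          (mem_nb.mp (iso_nb hz hy')).2 hyy hzr.2.1
      have hzn : ¬ G.Adj v z := by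
        intro h
        have : v ∈ nb G A z := mem_nb.mpr ⟨hv, h.symm⟩
        exact hxv.2.2 (mem_nb.mp (iso_nb hz this)).2.symm
      have hzB : z ∈ rmv G A v := mem_rmv.mpr ⟨hzr.1, hzv, hzn⟩
      obtain ⟨y, hy⟩ := exists_nb (mem_iso.mp hz).2.1
      have hy2 := iso_nb hz hy
      have hyt : y = t := by
        by_contra hcon
        have : y ∉ nb G A x \ nb G (rmv G A v) x := by
          rw [ht, mem_singleton]
          exact hcon
        rw [mem_sdiff] at this
        push Not at this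
        have hy3 := this hy2
        have a1 : x ∈ nb G (rmv G A v) y := mem_nb.mpr ⟨hxB, (mem_nb.mp hy3).2.symm⟩
        have a2 : z ∈ nb G (rmv G A v) y := mem_nb.mpr ⟨hzB, (mem_nb.mp hy).2.symm⟩
        exact hzr.2.1 (uniq1 (hx3 y hy3) a2 a1)
      subst hyt
      exact mem_erase.mpr ⟨hzv, mem_erase.mpr ⟨hzr.2.1, mem_nb.mpr ⟨hzr.1, (mem_nb.mp hy).2.symm⟩⟩⟩
    have hxt : x ∈ nb G A t := mem_nb.mpr ⟨hxA, htx.2.symm⟩
    have hvt' : v ∈ (nb G A t).erase x :=
      mem_erase.mpr ⟨fun h => hxv.2.1 h.symm, mem_nb.mpr ⟨hv, hvt.symm⟩⟩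
    have hc1 := card_le_card hsub
    rw [card_erase_of_mem hvt', card_erase_of_mem hxt] at hc1
    have hc2 := h3 A t
    unfold dg at hc2
    have hc3 := h1 x hxA hA3
    omega

/-- `x` is an inner vertex of a `P4` component. -/
def Q4 (G : SimpleGraph V) [DecidableRel G.Adj] (A : Finset V) (x : V) : Prop :=
  dg G A x = 2 ∧ ∃ y ∈ nb G A x, dg G A y = 2 ∧ (∀ z ∈ nb G A x, z ≠ y → dg G A z = 1) ∧
    (∀ z ∈ nb G A y, z ≠ x → dg G A z = 1)

theorem exists32 (hc : NC G) (h3 : ∀ (A : Finset V) v, dg G A v ≤ 3) {A : Finset V}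
    (h1 : ∀ w ∈ A, dg G A w = 3 → 2 ≤ (iso G A w).card)
    (h2 : ∀ w ∈ A, dg G A w = 2 → 1 ≤ (iso G A w).card)
    (hS : ∃ x ∈ A, 2 ≤ dg G A x ∧ ¬ Q4 G A x) :
    ∃ v ∈ A, dg G A v = 3 ∧ (iso G A v).card ≤ 2 := by
  classical
  have hex : ∃ v1 ∈ A, (2 ≤ dg G A v1 ∧ ¬ Q4 G A v1) ∧ ∀ a ∈ A, ∀ b ∈ A,
      (2 ≤ dg G A a ∧ ¬ Q4 G A a) → (2 ≤ dg G A b ∧ ¬ Q4 G A b) → G.Adj v1 a → G.Adj v1 b →
      a = b := by
    by_contra hcon
    push Not at hcon
    obtain ⟨x, hx, hx2⟩ := hS
    refine hc (A.filter (fun x => 2 ≤ dg G A x ∧ ¬ Q4 G A x)) ⟨x, mem_filter.mpr ⟨hx, hx2⟩⟩ ?_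
    intro v hv
    rw [mem_filter] at hv
    obtain ⟨a, ha, b, hb, ha2, hb2, hva, hvb, hab⟩ := hcon v hv.1 hv.2
    exact ⟨a, mem_filter.mpr ⟨ha, ha2⟩, b, mem_filter.mpr ⟨hb, hb2⟩, hab, hva, hvb⟩
  obtain ⟨v1, hv1, ⟨hv1d, hv1Q⟩, hv1u⟩ := hex
  have hnl0 : ∀ a ∈ nb G A v1, 2 ≤ dg G A a → ¬ Q4 G A a := by
    intro a ha ha2 hQ
    obtain ⟨q1, y, hy, q2, q3, q4⟩ := hQ
    have hv1a : v1 ∈ nb G A a := mem_nb.mpr ⟨hv1, (mem_nb.mp ha).2.symm⟩
    have hy1 : v1 = y := by
      by_contra hcon
      have := q3 v1 hv1a hcon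
      omega
    subst hy1
    exact hv1Q ⟨q2, a, ha, q1, q4, q3⟩
  have hnl : ∀ a ∈ nb G A v1, ∀ b ∈ nb G A v1, 2 ≤ dg G A a → 2 ≤ dg G A b → a = b := by
    intro a ha b hb ha2 hb2
    exact hv1u a (mem_nb.mp ha).1 b (mem_nb.mp hb).1 ⟨ha2, hnl0 a ha ha2⟩ ⟨hb2, hnl0 b hb hb2⟩
      (mem_nb.mp ha).2 (mem_nb.mp hb).2
  -- a neighbour carrying a newly isolated vertex has degree at least two
  have hdeg2 : ∀ (v x y : V), v ∈ A → y ∈ nb G A v → x ∈ lf G A v y → 2 ≤ dg G A y := by
    intro v x y hv hy hx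
    have hx' := mem_lf.mp hx
    apply one_lt_card.mpr
    exact ⟨x, mem_nb.mpr hx'.1, v, mem_nb.mpr ⟨hv, (mem_nb.mp hy).2.symm⟩, hx'.2.1⟩
  have hle := h3 A v1
  by_cases hd3 : dg G A v1 = 3
  · refine ⟨v1, hv1, hd3, ?_⟩
    have hpos := h1 v1 hv1 hd3
    obtain ⟨x0, hx0⟩ := card_pos.mp (by omega : 0 < (iso G A v1).card)
    obtain ⟨y0, hy0, hxy0⟩ := iso_lf hc hx0
    have hy0d := hdeg2 v1 x0 y0 hv1 hy0 hxy0
    have hsub : iso G A v1 ⊆ (nb G A y0).erase v1 := by
      intro x hx
      obtain ⟨y, hy, hxy⟩ := iso_lf hc hx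
      have hyd := hdeg2 v1 x y hv1 hy hxy
      have := hnl y hy y0 hy0 hyd hy0d
      subst this
      have hx' := mem_lf.mp hxy
      exact mem_erase.mpr ⟨hx'.2.1, mem_nb.mpr hx'.1⟩
    have hc1 := card_le_card hsub
    rw [card_erase_of_mem (mem_nb.mpr ⟨hv1, (mem_nb.mp hy0).2.symm⟩)] at hc1
    have hc2 := h3 A y0
    unfold dg at hc2
    omega
  · have hd2 : dg G A v1 = 2 := by omega
    have hpos := h2 v1 hv1 hd2
    obtain ⟨x, hx⟩ := card_pos.mp (by omega : 0 < (iso G A v1).card)
    obtain ⟨p, hp, hxp⟩ := iso_lf hc hx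
    have hpd := hdeg2 v1 x p hv1 hp hxp
    have hpA := (mem_nb.mp hp).1
    have hx' := mem_lf.mp hxp
    have hv1p : v1 ∈ nb G A p := mem_nb.mpr ⟨hv1, (mem_nb.mp hp).2.symm⟩
    have hxnp : x ∈ nb G A p := mem_nb.mpr hx'.1
    have hple := h3 A p
    by_cases hp2 : dg G A p = 2
    · exfalso
      apply hv1Q
      refine ⟨hd2, p, hp, hp2, ?_, ?_⟩
      · intro z hz hzp
        have h0 : dg G A z ≠ 0 :=
          dg_ne_zero (mem_nb.mpr ⟨hv1, (mem_nb.mp hz).2.symm⟩ : v1 ∈ nb G A z)
        by_contra hcon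
        exact hzp (hnl z hz p hp (by omega) hpd)
      · intro z hz hzv
        have hcd : ((nb G A p).erase v1).card = 1 := by
          rw [card_erase_of_mem hv1p]
          unfold dg at hp2
          omega
        have e1 : z ∈ (nb G A p).erase v1 := mem_erase.mpr ⟨hzv, hz⟩
        have e2 : x ∈ (nb G A p).erase v1 := mem_erase.mpr ⟨hx'.2.1, hxnp⟩
        have : z = x := card_le_one.mp (le_of_eq hcd) z e1 x e2
        rw [this]
        exact hx'.2.2
    · have hp3 : dg G A p = 3 := by omega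
      have e2 : x ∈ (nb G A p).erase v1 := mem_erase.mpr ⟨hx'.2.1, hxnp⟩
      have hcd : (((nb G A p).erase v1).erase x).card = 1 := by
        rw [card_erase_of_mem e2, card_erase_of_mem hv1p]
        unfold dg at hp3
        omega
      obtain ⟨q, hq⟩ := card_eq_one.mp hcd
      have hq1 : q ∈ ((nb G A p).erase v1).erase x := by rw [hq]; simp
      rw [mem_erase, mem_erase] at hq1
      obtain ⟨hqx, hqv, hqp⟩ := hq1
      have hqA := (mem_nb.mp hqp).1
      have hthree : ∀ y ∈ nb G A p, y = v1 ∨ y = x ∨ y = q := by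
        intro y hy
        by_cases y1 : y = v1
        · exact Or.inl y1
        by_cases y2 : y = x
        · exact Or.inr (Or.inl y2)
        have : y ∈ ((nb G A p).erase v1).erase x := mem_erase.mpr ⟨y2, mem_erase.mpr ⟨y1, hy⟩⟩
        rw [hq, mem_singleton] at this
        exact Or.inr (Or.inr this)
      have hpq : p ∈ nb G A q := mem_nb.mpr ⟨hpA, (mem_nb.mp hqp).2.symm⟩
      have hpx : p ∈ nb G A x := mem_nb.mpr ⟨hpA, hx'.1.2.symm⟩
      have hsub : iso G A p ⊆ (nb G A v1).erase p ∪ (nb G A q).erase p := by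
        intro t ht
        obtain ⟨y, hy, hty⟩ := iso_lf hc ht
        have hty' := mem_lf.mp hty
        rcases hthree y hy with rfl | rfl | rfl
        · exact mem_union_left _ (mem_erase.mpr ⟨hty'.2.1, mem_nb.mpr hty'.1⟩)
        · exfalso
          exact hty'.2.1 (uniq1 hx'.2.2 (mem_nb.mpr hty'.1) hpx)
        · exact mem_union_right _ (mem_erase.mpr ⟨hty'.2.1, mem_nb.mpr hty'.1⟩)
      by_cases hi : (iso G A p).card ≤ 2
      · exact ⟨p, hpA, hp3, hi⟩
      · exfalso
        have k1 := card_union_le ((nb G A v1).erase p) ((nb G A q).erase p)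
        rw [card_erase_of_mem hp, card_erase_of_mem hpq] at k1
        have k2 := h3 A q
        have k3 : (nb G A v1).card = 2 := hd2
        unfold dg at k2
        have k4 : iso G A p = (nb G A v1).erase p ∪ (nb G A q).erase p :=
          eq_of_subset_of_card_le hsub (by omega)
        have k5 : dg G A q = 3 := by
          unfold dg
          have k6 := card_le_card hsub
          omega
        have hsubq : iso G A q ⊆ {x} := by
          intro t ht
          obtain ⟨y, hy, hty⟩ := iso_lf hc ht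
          have hty' := mem_lf.mp hty
          by_cases hyp : y = p
          · subst hyp
            rcases hthree t (mem_nb.mpr hty'.1) with rfl | rfl | rfl
            · have := hty'.2.2
              omega
            · simp
            · exact absurd rfl hty'.2.1
          · exfalso
            have hyi : y ∈ iso G A p := by
              rw [k4]
              exact mem_union_right _ (mem_erase.mpr ⟨hyp, hy⟩)
            have hyd := iso_dg hc hyi
            have b1 : q ∈ nb G A y := mem_nb.mpr ⟨hqA, (mem_nb.mp hy).2.symm⟩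
            have b2 : t ∈ nb G A y := mem_nb.mpr hty'.1
            exact hty'.2.1 (uniq1 hyd b2 b1)
        have k7 := card_le_card hsubq
        rw [card_singleton] at k7
        have k8 := h1 q hqA k5
        omega

theorem createP3 (hc : NC G) (h3 : ∀ (A : Finset V) v, dg G A v ≤ 3) {A B : Finset V}
    (hcl : Cl G A B)
    (h1 : ∀ w ∈ A, dg G A w = 3 → 2 ≤ (iso G A w).card) (hP : P3 G B = ∅) {w : V} (hw : w ∈ B)
    (hd : dg G B w = 1) (hi : 1 ≤ (iso G B w).card) : 1 ≤ (P3 G (rmv G B w)).card := by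
  obtain ⟨x, hx⟩ := card_pos.mp (by omega : 0 < (iso G B w).card)
  obtain ⟨y, hy, hxy⟩ := iso_lf hc hx
  have hx' := mem_lf.mp hxy
  have hyB := (mem_nb.mp hy).1
  have hwy : w ∈ nb G B y := mem_nb.mpr ⟨hw, (mem_nb.mp hy).2.symm⟩
  have hxy1 : x ∈ nb G B y := mem_nb.mpr hx'.1
  have hyx : y ∈ nb G B x := mem_nb.mpr ⟨hyB, hx'.1.2.symm⟩
  have hyd : 2 ≤ dg G B y := one_lt_card.mpr ⟨x, hxy1, w, hwy, hx'.2.1⟩
  have hyle := h3 B y
  have e2 : x ∈ (nb G B y).erase w := mem_erase.mpr ⟨hx'.2.1, hxy1⟩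
  by_cases hy2 : dg G B y = 2
  · exfalso
    have : y ∈ P3 G B := by
      rw [mem_P3]
      refine ⟨hyB, hy2, ?_⟩
      intro z hz
      by_cases hzw : z = w
      · rw [hzw]
        exact hd
      · have hcd : ((nb G B y).erase w).card = 1 := by
          rw [card_erase_of_mem hwy]
          unfold dg at hy2
          omega
        have e1 : z ∈ (nb G B y).erase w := mem_erase.mpr ⟨hzw, hz⟩
        have : z = x := card_le_one.mp (le_of_eq hcd) z e1 x e2
        rw [this]
        exact hx'.2.2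
    rw [hP] at this
    simp at this
  · have hy3 : dg G B y = 3 := by omega
    obtain ⟨f1, f2⟩ := full_sub h3 hcl.1 hy3
    have hi2 := h1 y (hcl.1 hyB) f2
    have hcd : (((nb G B y).erase w).erase x).card = 1 := by
      rw [card_erase_of_mem e2, card_erase_of_mem hwy]
      unfold dg at hy3
      omega
    obtain ⟨q, hq⟩ := card_eq_one.mp hcd
    have hq1 : q ∈ ((nb G B y).erase w).erase x := by rw [hq]; simp
    rw [mem_erase, mem_erase] at hq1
    obtain ⟨hqx, hqw, hqy⟩ := hq1
    have hqB := (mem_nb.mp hqy).1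
    have hyq : y ∈ nb G A q := mem_nb.mpr ⟨hcl.1 hyB, (mem_nb.mp hqy).2.symm⟩
    have hiB : ∀ t ∈ iso G A y, t ∈ B := fun t ht =>
      cl_iso hcl (by rw [f1]; exact filter_subset _ _) ht
    have hsub : iso G A y ⊆ (nb G A q).erase y := by
      intro t ht
      have htr := mem_rmv.mp (mem_iso.mp ht).1
      obtain ⟨s, hs⟩ := exists_nb (mem_iso.mp ht).2.1
      have hs2 := iso_nb ht hs
      rw [f1] at hs2
      have hst := (mem_nb.mp hs).2
      have s1 : s ≠ w := by
        rintro rfl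
        have b1 : t ∈ nb G B s := mem_nb.mpr ⟨hiB t ht, hst.symm⟩
        exact htr.2.1 (uniq1 hd b1 hy)
      have s2 : s ≠ x := by
        rintro rfl
        have b1 : t ∈ nb G B s := mem_nb.mpr ⟨hiB t ht, hst.symm⟩
        exact htr.2.1 (uniq1 hx'.2.2 b1 hyx)
      have s3 : s ∈ ((nb G B y).erase w).erase x := mem_erase.mpr ⟨s2, mem_erase.mpr ⟨s1, hs2⟩⟩
      rw [hq, mem_singleton] at s3
      subst s3
      exact mem_erase.mpr ⟨htr.2.1, mem_nb.mpr ⟨htr.1, hst.symm⟩⟩
    have hcq : ((nb G A q).erase y).card ≤ 2 := by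
      rw [card_erase_of_mem hyq]
      have := h3 A q
      unfold dg at this
      omega
    have heq : iso G A y = (nb G A q).erase y := eq_of_subset_of_card_le hsub (by omega)
    have hc2 : (iso G A y).card = 2 := by
      rw [← heq] at hcq
      omega
    have hqr : q ∈ rmv G B w := by
      rw [mem_rmv]
      refine ⟨hqB, hqw, ?_⟩
      intro h
      have : q ∈ nb G B w := mem_nb.mpr ⟨hqB, h⟩
      have h5 := uniq1 hd this hy
      rw [h5] at hqy
      exact G.loopless.irrefl y (mem_nb.mp hqy).2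
    have hnbq : nb G (rmv G B w) q = iso G A y := by
      ext s
      constructor
      · intro hs
        rw [heq, mem_erase]
        have hs' := mem_nb.mp hs
        have hsr := mem_rmv.mp hs'.1
        refine ⟨?_, mem_nb.mpr ⟨hcl.1 hsr.1, hs'.2⟩⟩
        rintro rfl
        exact hsr.2.2 (mem_nb.mp hy).2
      · intro hs
        have hsB := hiB s hs
        have hsr := mem_rmv.mp (mem_iso.mp hs).1
        have hsq := hs
        rw [heq, mem_erase] at hsq
        refine mem_nb.mpr ⟨mem_rmv.mpr ⟨hsB, ?_, ?_⟩, (mem_nb.mp hsq.2).2⟩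
        · rintro rfl
          exact hsr.2.2 (mem_nb.mp hwy).2
        · intro h
          exact hsr.2.1 (uniq1 hd (mem_nb.mpr ⟨hsB, h⟩) hy)
    apply card_pos.mpr
    refine ⟨q, ?_⟩
    rw [mem_P3]
    refine ⟨hqr, ?_, ?_⟩
    · unfold dg
      rw [hnbq, hc2]
    · intro s hs
      have hs' := hs
      rw [hnbq] at hs'
      have a1 := iso_dg hc hs'
      have a2 : dg G (rmv G B w) s ≤ dg G A s :=
        dg_mono (Subset.trans (rmv_sub B w) hcl.1) s
      have a3 : q ∈ nb G (rmv G B w) s := mem_nb.mpr ⟨hqr, (mem_nb.mp hs).2.symm⟩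
      have a4 := dg_ne_zero a3
      omega

/-- Regime 3 without `(2,0)` vertices. -/
theorem regime3b (hc : NC G) (h3 : ∀ (A : Finset V) v, dg G A v ≤ 3) {A : Finset V}
    (h1 : ∀ w ∈ A, dg G A w = 3 → 2 ≤ (iso G A w).card)
    (h2 : ∀ w ∈ A, dg G A w = 2 → 1 ≤ (iso G A w).card)
    (hS : ∃ x ∈ A, 2 ≤ dg G A x ∧ ¬ Q4 G A x) :
    ∃ v ∈ A, phi G (rmv G A v) + 20 ≤ phi G A ∧
      ∀ w ∈ rmv G A v, phi G (rmv G (rmv G A v) w) + 40 ≤ phi G A := by
  obtain ⟨v, hv, hd, hi⟩ := exists32 hc h3 h1 h2 hS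
  have hP : v ∉ P3 G A := by
    intro h
    have := (mem_P3.mp h).2.1
    omega
  have hl := loss_fine hv (by omega) hP
  rw [hd] at hl
  have hi' : ((iso G A v).card : ℤ) ≤ 2 := by exact_mod_cast hi
  push_cast at hl
  refine ⟨v, hv, by linarith, ?_⟩
  intro w hw
  have hPB := noP3 hc h3 h1 h2 hv hd
  have hdw := h3 (rmv G A v) w
  have hb := LB hc h3 (cl_rmv hv) 2 h1 hw
  by_cases h0 : dg G (rmv G A v) w = 0
  · have := loss_zero hc hw h0
    linarith
  have hle := loss_eq hw h0
  rw [hPB, card_empty] at hle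
  have hnn : (0:ℤ) ≤ ((P3 G (rmv G (rmv G A v) w)).card : ℤ) := by positivity
  by_cases hone : dg G (rmv G A v) w = 1
  · by_cases hzero : (iso G (rmv G A v) w).card = 0
    · rw [hone, hzero] at hle
      push_cast at hle
      linarith
    · have h5 := createP3 hc h3 (cl_rmv hv) h1 hPB hw hone (by omega)
      have h5' : (1:ℤ) ≤ ((P3 G (rmv G (rmv G A v) w)).card : ℤ) := by exact_mod_cast h5
      have h6 : (iso G (rmv G A v) w).card ≤ 1 := by omega
      have h6' : ((iso G (rmv G A v) w).card : ℤ) ≤ 1 := by exact_mod_cast h6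
      rw [hone] at hle
      push_cast at hle
      linarith
  · have hb' : (-11 : ℤ) * (dg G (rmv G A v) w : ℤ) + 9 * ((iso G (rmv G A v) w).card : ℤ)
        ≤ -4 := by
      omega
    push_cast at hle
    linarith

theorem q4_rmv {A : Finset V} (hA : ∀ x ∈ A, 2 ≤ dg G A x → Q4 G A x) {v : V}
    (hv : v ∈ A) : ∀ x ∈ rmv G A v, 2 ≤ dg G (rmv G A v) x → Q4 G (rmv G A v) x := by
  intro x hx hx2
  have hm := dg_mono (G := G) (rmv_sub A v (G := G)) x
  have hxA := rmv_sub A v hx
  have hxv := mem_rmv.mp hx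
  obtain ⟨q1, y, hy, q2, q3, q4⟩ := hA x hxA (by omega)
  have hnb : nb G (rmv G A v) x = nb G A x := by
    apply eq_of_subset_of_card_le (nb_mono (rmv_sub A v) x)
    unfold dg at q1 hx2
    omega
  have hyB : y ∈ nb G (rmv G A v) x := by rw [hnb]; exact hy
  have hyr := mem_rmv.mp (mem_nb.mp hyB).1
  have hnby : nb G (rmv G A v) y = nb G A y := by
    apply Subset.antisymm (nb_mono (rmv_sub A v) y)
    intro t ht
    have ht' := mem_nb.mp ht
    by_cases htx : t = x
    · rw [htx]
      exact mem_nb.mpr ⟨hx, (mem_nb.mp hy).2.symm⟩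
    · have hd := q4 t ht htx
      refine mem_nb.mpr ⟨mem_rmv.mpr ⟨ht'.1, ?_, ?_⟩, ht'.2⟩
      · rintro rfl
        exact hyr.2.2 ht'.2.symm
      · intro h
        exact hyr.2.1 (uniq1 hd (mem_nb.mpr ⟨hyr.1, ht'.2.symm⟩) (mem_nb.mpr ⟨hv, h.symm⟩))
  have hdeg : ∀ z, dg G A z = 1 → ∀ s, s ∈ nb G (rmv G A v) z → dg G (rmv G A v) z = 1 := by
    intro z hz s hs
    have a1 := dg_mono (G := G) (rmv_sub A v (G := G)) z
    have a2 := dg_ne_zero hs
    omega
  refine ⟨?_, y, hyB, ?_, ?_, ?_⟩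
  · unfold dg
    rw [hnb]
    exact q1
  · unfold dg
    rw [hnby]
    exact q2
  · intro z hz hzy
    rw [hnb] at hz
    exact hdeg z (q3 z hz hzy) x (mem_nb.mpr ⟨hx, (mem_nb.mp hz).2.symm⟩)
  · intro z hz hzx
    rw [hnby] at hz
    exact hdeg z (q4 z hz hzx) y (mem_nb.mpr ⟨(mem_nb.mp hyB).1, (mem_nb.mp hz).2.symm⟩)

theorem q4_loss (hc : NC G) {A : Finset V} (hA : ∀ x ∈ A, 2 ≤ dg G A x → Q4 G A x) {v : V}
    (hv : v ∈ A) : phi G (rmv G A v) + 20 ≤ phi G A := by
  by_cases h0 : dg G A v = 0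
  · exact loss_zero hc hv h0
  have hP : P3 G A = ∅ := by
    rw [eq_empty_iff_forall_notMem]
    intro x hx
    obtain ⟨p1, p2, p3⟩ := mem_P3.mp hx
    obtain ⟨q1, y, hy, q2, q3, q4⟩ := hA x p1 (by omega)
    have := p3 y hy
    omega
  have hle := loss_eq hv h0
  rw [hP, card_empty] at hle
  have hnn : (0:ℤ) ≤ ((P3 G (rmv G A v)).card : ℤ) := by positivity
  by_cases h1 : dg G A v = 1
  · have hi : (iso G A v).card = 0 := by
      rw [card_eq_zero, eq_empty_iff_forall_notMem]
      intro x hx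
      obtain ⟨y, hy, hxy⟩ := iso_lf hc hx
      have hx' := mem_lf.mp hxy
      have hvy : v ∈ nb G A y := mem_nb.mpr ⟨hv, (mem_nb.mp hy).2.symm⟩
      have hxy1 : x ∈ nb G A y := mem_nb.mpr hx'.1
      have hyd : 2 ≤ dg G A y := one_lt_card.mpr ⟨x, hxy1, v, hvy, hx'.2.1⟩
      obtain ⟨q1, y', hy', q2, q3, q4⟩ := hA y (mem_nb.mp hy).1 hyd
      have hcd : ((nb G A y).erase v).card = 1 := by
        rw [card_erase_of_mem hvy]
        unfold dg at q1
        omega
      by_cases hyv : y' = v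
      · rw [hyv] at q2
        omega
      · have e1 : y' ∈ (nb G A y).erase v := mem_erase.mpr ⟨hyv, hy'⟩
        have e2 : x ∈ (nb G A y).erase v := mem_erase.mpr ⟨hx'.2.1, hxy1⟩
        have : y' = x := card_le_one.mp (le_of_eq hcd) y' e1 x e2
        rw [this] at q2
        have := hx'.2.2
        omega
    rw [h1, hi] at hle
    push_cast at hle
    linarith
  · obtain ⟨q1, y, hy, q2, q3, q4⟩ := hA v hv (by omega)
    have hi : (iso G A v).card ≤ 1 := by
      have hsub : iso G A v ⊆ (nb G A y).erase v := by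
        intro x hx
        obtain ⟨s, hs, hxs⟩ := iso_lf hc hx
        have hx' := mem_lf.mp hxs
        have hvs : v ∈ nb G A s := mem_nb.mpr ⟨hv, (mem_nb.mp hs).2.symm⟩
        by_cases hsy : s = y
        · subst hsy
          exact mem_erase.mpr ⟨hx'.2.1, mem_nb.mpr hx'.1⟩
        · exfalso
          exact hx'.2.1 (uniq1 (q3 s hs hsy) (mem_nb.mpr hx'.1) hvs)
      have h5 := card_le_card hsub
      rw [card_erase_of_mem (mem_nb.mpr ⟨hv, (mem_nb.mp hy).2.symm⟩)] at h5
      unfold dg at q2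
      omega
    have hi' : ((iso G A v).card : ℤ) ≤ 1 := by exact_mod_cast hi
    rw [q1] at hle
    push_cast at hle
    linarith

theorem main_step (hc : NC G) (h3 : ∀ (A : Finset V) v, dg G A v ≤ 3) {A : Finset V}
    (hne : A.Nonempty) :
    ∃ v ∈ A, phi G (rmv G A v) + 20 ≤ phi G A ∧
      ∀ w ∈ rmv G A v, phi G (rmv G (rmv G A v) w) + 40 ≤ phi G A := by
  by_cases c1 : ∃ u ∈ A, TC G A u
  · obtain ⟨u, hu, hT⟩ := c1
    exact regime1a hc h3 hu hT
  push Not at c1
  by_cases c2 : ∃ w ∈ A, dg G A w = 3 ∧ (iso G A w).card = 0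
  · obtain ⟨w, hw, hw1, hw2⟩ := c2
    exact regime1 hc h3 c1 hw hw1 hw2
  push Not at c2
  by_cases c3 : ∃ w ∈ A, dg G A w = 3 ∧ (iso G A w).card ≤ 1
  · obtain ⟨w, hw, hw1, hw2⟩ := c3
    exact regime2 hc h3 (fun w hw hd => Nat.one_le_iff_ne_zero.mpr (c2 w hw hd)) hw hw1 hw2
  push Not at c3
  by_cases c4 : ∃ w ∈ A, dg G A w = 2 ∧ (iso G A w).card = 0
  · obtain ⟨w, hw, hw1, hw2⟩ := c4
    exact regime3a hc h3 (fun w hw hd => c3 w hw hd) hw hw1 hw2
  push Not at c4
  by_cases c5 : ∃ x ∈ A, 2 ≤ dg G A x ∧ ¬ Q4 G A x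
  · exact regime3b hc h3 (fun w hw hd => c3 w hw hd)
      (fun w hw hd => Nat.one_le_iff_ne_zero.mpr (c4 w hw hd)) c5
  push Not at c5
  obtain ⟨v, hv⟩ := hne
  have hl := q4_loss hc c5 hv
  refine ⟨v, hv, hl, ?_⟩
  intro w hw
  have := q4_loss hc (q4_rmv c5 hv) hw
  linarith


theorem nc_of_acyclic (h : G.IsAcyclic) : NC G := by
  classical
  intro S hS h2
  obtain ⟨v0, hv0⟩ := hS
  have hH : (G.induce (S : Set V)).IsAcyclic := h.induce _
  set H := G.induce (S : Set V) with hHdef
  let c := H.connectedComponentMk ⟨v0, hv0⟩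
  have hT := hH.isTree_connectedComponent c
  have : Finite c := Subtype.finite
  have : Fintype c := Fintype.ofFinite _
  have hstep : ∀ x : c, ∃ a b : c, a ≠ b ∧ c.toSimpleGraph.Adj x a ∧ c.toSimpleGraph.Adj x b := by
    intro x
    obtain ⟨a, ha, b, hb, hab, hxa, hxb⟩ := h2 x.1.1 x.1.2
    have key : ∀ a (ha : a ∈ S), G.Adj x.1.1 a → (⟨a, ha⟩ : (S : Set V)) ∈ c.supp := by
      intro a ha hxa
      have hadj : H.Adj x.1 ⟨a, ha⟩ := hxa
      have := x.2
      exact (c.mem_supp_congr_adj hadj).mp this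
    refine ⟨⟨⟨a, ha⟩, key a ha hxa⟩, ⟨⟨b, hb⟩, key b hb hxb⟩, ?_, ?_, ?_⟩
    · intro h
      apply hab
      have := congrArg (fun z => z.1.1) h
      exact this
    · exact hxa
    · exact hxb
  have : Nontrivial c := by
    obtain ⟨a, b, hab, _, _⟩ := hstep ⟨⟨v0, hv0⟩, rfl⟩
    exact ⟨a, b, hab⟩
  obtain ⟨x, hx⟩ := hT.exists_vert_degree_one_of_nontrivial
  obtain ⟨a, b, hab, hxa, hxb⟩ := hstep x
  have h1 : 1 < (c.toSimpleGraph.neighborFinset x).card := by
    apply one_lt_card.mpr
    exact ⟨a, by simpa using hxa, b, by simpa using hxb, hab⟩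
  rw [SimpleGraph.card_neighborFinset_eq_degree, hx] at h1
  omega

end comb


section final

variable {V : Type*} [Fintype V] [DecidableEq V] (G : SimpleGraph V) [DecidableRel G.Adj]

theorem mem_legal {S : Finset V} {v : V} :
    v ∈ legal G S ↔ v ∉ S ∧ ∀ s ∈ S, ¬ G.Adj s v := by
  simp [legal]

theorem legal_insert (S : Finset V) (v : V) : legal G (insert v S) = rmv G (legal G S) v := by
  ext x
  rw [mem_legal, mem_rmv, mem_legal]
  constructor
  · rintro ⟨h1, h2⟩
    rw [mem_insert, not_or] at h1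
    exact ⟨⟨h1.2, fun s hs => h2 s (mem_insert_of_mem hs)⟩, h1.1, h2 v (mem_insert_self _ _)⟩
  · rintro ⟨⟨h1, h2⟩, h3, h4⟩
    refine ⟨?_, ?_⟩
    · rw [mem_insert, not_or]
      exact ⟨h3, h1⟩
    · intro s hs
      rw [mem_insert] at hs
      rcases hs with rfl | hs
      · exact h4
      · exact h2 s hs

theorem value_end (b : Bool) (S : Finset V) (h : ¬ (legal G S).Nonempty) :
    value G b S = S.card := by
  rw [value, dif_neg h]

theorem value_true_le {S : Finset V} {v : V} (hv : v ∈ legal G S) :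
    value G true S ≤ value G false (insert v S) := by
  have h : (legal G S).Nonempty := ⟨v, hv⟩
  rw [value, dif_pos h]
  simp only [if_true]
  exact Finset.inf'_le (f := fun v : {x // x ∈ legal G S} => value G false (insert v.1 S))
    (mem_attach _ ⟨v, hv⟩)

theorem value_false_le {S : Finset V} {c : ℕ} (h : (legal G S).Nonempty)
    (hc : ∀ v ∈ legal G S, value G true (insert v S) ≤ c) :
    value G false S ≤ c := by
  rw [value, dif_pos h]
  simp only [Bool.false_eq_true, if_false]
  apply Finset.sup'_le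
  intro v _
  exact hc v.1 v.2

theorem legal_notMem {S : Finset V} {v : V} (hv : v ∈ legal G S) : v ∉ S :=
  ((mem_legal G).mp hv).1

theorem phi_empty : phi G ∅ = 0 := by
  simp [phi, ph0, P3]

theorem value_bound (hc : NC G) (h3 : ∀ (A : Finset V) v, dg G A v ≤ 3) :
    ∀ (n : ℕ) (S : Finset V), (legal G S).card ≤ n →
      20 * (value G true S : ℤ) ≤ 20 * (S.card : ℤ) + phi G (legal G S) := by
  intro n
  induction n using Nat.strong_induction_on with
  | _ n ih =>
    intro S hn
    by_cases hne : (legal G S).Nonempty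
    · obtain ⟨v, hv, hl, hw⟩ := main_step hc h3 hne
      have h1 := value_true_le G hv
      have hvS := legal_notMem G hv
      have h1' : (value G true S : ℤ) ≤ value G false (insert v S) := by exact_mod_cast h1
      by_cases hne2 : (legal G (insert v S)).Nonempty
      · -- Sweller moves
        have hpos : 0 < (legal G S).card := card_pos.mpr hne
        obtain ⟨w, hwm, hwv⟩ : ∃ w ∈ legal G (insert v S),
            value G false (insert v S) ≤ value G true (insert w (insert v S)) := by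
          by_contra hcon
          push Not at hcon
          have h5 : value G false (insert v S) ≤ value G false (insert v S) - 1 := by
            apply value_false_le G hne2
            intro w hw
            have := hcon w hw
            omega
          obtain ⟨w, hw⟩ := hne2
          have := hcon w hw
          omega
        have hwS := legal_notMem G hwm
        have hleg : legal G (insert w (insert v S)) = rmv G (rmv G (legal G S) v) w := by
          rw [legal_insert, legal_insert]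
        have hwm' : w ∈ rmv G (legal G S) v := by rw [← legal_insert]; exact hwm
        have hcardlt : (legal G (insert w (insert v S))).card < n := by
          rw [hleg]
          have k1 : rmv G (rmv G (legal G S) v) w ⊂ rmv G (legal G S) v := by
            refine (Finset.ssubset_iff_of_subset (rmv_sub _ _)).mpr ⟨w, hwm', ?_⟩
            intro h
            exact (mem_rmv.mp h).2.1 rfl
          have k2 := card_lt_card k1
          have k3 := card_le_card (rmv_sub (G := G) (legal G S) v)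
          omega
        have h6 := ih _ hcardlt (insert w (insert v S)) le_rfl
        rw [hleg, card_insert_of_notMem hwS, card_insert_of_notMem hvS] at h6
        have h7 := hw w hwm'
        have h8 : (value G false (insert v S) : ℤ) ≤ value G true (insert w (insert v S)) := by
          exact_mod_cast hwv
        push_cast at h6
        linarith
      · have h2 := value_end G false (insert v S) hne2
        rw [card_insert_of_notMem hvS] at h2
        have h5 : rmv G (legal G S) v = ∅ := by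
          rw [← legal_insert]
          exact not_nonempty_iff_eq_empty.mp hne2
        rw [h5, phi_empty] at hl
        rw [h2] at h1'
        push_cast at h1'
        linarith
    · rw [value_end G true S hne, not_nonempty_iff_eq_empty.mp hne, phi_empty]
      linarith

theorem value_bound_false (hc : NC G) (h3 : ∀ (A : Finset V) v, dg G A v ≤ 3) (S : Finset V) :
    20 * (value G false S : ℤ) ≤ 20 * (S.card : ℤ) + phi G (legal G S) + 30 := by
  by_cases hne : (legal G S).Nonempty
  · obtain ⟨w, hwm, hwv⟩ : ∃ w ∈ legal G S,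
        value G false S ≤ value G true (insert w S) := by
      by_contra hcon
      push Not at hcon
      have h5 : value G false S ≤ value G false S - 1 := by
        apply value_false_le G hne
        intro w hw
        have := hcon w hw
        omega
      obtain ⟨w, hw⟩ := hne
      have := hcon w hw
      omega
    have h6 := value_bound G hc h3 _ (insert w S) le_rfl
    have h7 := loss_any hc h3 hwm
    rw [legal_insert, card_insert_of_notMem (legal_notMem G hwm)] at h6
    have h8 : (value G false S : ℤ) ≤ value G true (insert w S) := by exact_mod_cast hwv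
    push_cast at h6
    linarith
  · rw [value_end G false S hne, not_nonempty_iff_eq_empty.mp hne, phi_empty]
    linarith

theorem legal_empty : legal G ∅ = univ := by
  ext x
  simp [legal]

theorem nb_univ (v : V) : nb G univ v = G.neighborFinset v := by
  ext x
  simp [nb]

theorem phi_univ_le (h1 : ∀ v, 1 ≤ G.degree v) : phi G univ ≤ 11 * (Fintype.card V : ℤ) := by
  have e : ph0 G univ = 11 * (Fintype.card V : ℤ) := by
    unfold ph0
    rw [sum_congr rfl (g := fun _ => (11:ℤ))]
    · rw [sum_const, nsmul_eq_mul, card_univ]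
      ring
    · intro v _
      rw [if_neg]
      unfold dg
      rw [nb_univ, SimpleGraph.card_neighborFinset_eq_degree]
      have := h1 v
      omega
  unfold phi
  rw [e]
  have : (0:ℤ) ≤ ((P3 G univ).card : ℤ) := by positivity
  linarith

theorem forest_bounds (hG : G.IsAcyclic) (h3 : ∀ v, G.degree v ≤ 3) (h1 : ∀ v, 1 ≤ G.degree v) :
    20 * Id G ≤ 11 * Fintype.card V ∧ 20 * Is G ≤ 11 * Fintype.card V + 30 := by
  have hc := nc_of_acyclic (G := G) hG
  have h3' : ∀ (A : Finset V) v, dg G A v ≤ 3 := by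
    intro A v
    refine le_trans (dg_mono (subset_univ A) v) ?_
    unfold dg
    rw [nb_univ, SimpleGraph.card_neighborFinset_eq_degree]
    exact h3 v
  have b1 := value_bound G hc h3' _ ∅ le_rfl
  have b2 := value_bound_false G hc h3' ∅
  rw [legal_empty] at b1 b2
  have b3 := phi_univ_le G h1
  simp only [card_empty, Nat.cast_zero, mul_zero, zero_add] at b1 b2
  unfold Id Is
  constructor
  · have : 20 * (value G true ∅ : ℤ) ≤ 11 * (Fintype.card V : ℤ) := by linarith
    exact_mod_cast this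
  · have : 20 * (value G false ∅ : ℤ) ≤ 11 * (Fintype.card V : ℤ) + 30 := by linarith
    exact_mod_cast this

theorem tree_degree_pos (hG : G.IsTree) (hn : 2 ≤ Fintype.card V) (v : V) : 1 ≤ G.degree v := by
  have : Nontrivial V := Fintype.one_lt_card_iff_nontrivial.mp (by omega)
  exact hG.connected.preconnected.degree_pos_of_nontrivial v

theorem tree_bounds (hG : G.IsTree) (hn : 2 ≤ Fintype.card V) (h3 : ∀ v, G.degree v ≤ 3) :
    20 * Id G ≤ 11 * Fintype.card V ∧ 20 * Is G ≤ 11 * Fintype.card V + 30 :=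
  forest_bounds G hG.isAcyclic h3 (tree_degree_pos G hG hn)

end final

open Classical in
/-- `f_d(n)`: the maximum of `I_d(T)` over all subcubic trees `T` of order `n`. -/
noncomputable def fd (n : ℕ) : ℕ :=
  sSup {k | ∃ T : SimpleGraph (Fin n), T.IsTree ∧ (∀ v, T.degree v ≤ 3) ∧ k = Id T}

open Classical in
/-- `f_s(n)`: the maximum of `I_s(T)` over all subcubic trees `T` of order `n`. -/
noncomputable def fs (n : ℕ) : ℕ :=
  sSup {k | ∃ T : SimpleGraph (Fin n), T.IsTree ∧ (∀ v, T.degree v ≤ 3) ∧ k = Is T}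

theorem fd_le {n : ℕ} (hn : 2 ≤ n) : 20 * fd n ≤ 11 * n := by
  classical
  have h : fd n ≤ 11 * n / 20 := by
    unfold fd
    apply csSup_le'
    rintro k ⟨T, hT, hd, rfl⟩
    have := (tree_bounds T hT (by simpa using hn) hd).1
    rw [Fintype.card_fin] at this
    rw [Nat.le_div_iff_mul_le (by norm_num)]
    omega
  omega

theorem fs_le {n : ℕ} (hn : 2 ≤ n) : 20 * fs n ≤ 11 * n + 30 := by
  classical
  have h : fs n ≤ (11 * n + 30) / 20 := by
    unfold fs
    apply csSup_le'
    rintro k ⟨T, hT, hd, rfl⟩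
    have := (tree_bounds T hT (by simpa using hn) hd).2
    rw [Fintype.card_fin] at this
    rw [Nat.le_div_iff_mul_le (by norm_num)]
    omega
  omega

theorem limsup_aux (f : ℕ → ℕ) (hf : ∀ n, 2 ≤ n → 20 * f n ≤ 11 * n + 30) :
    Filter.limsup (fun n : ℕ => (f n : ℝ) / n) Filter.atTop ≤ 11 / 20 := by
  apply le_of_forall_pos_le_add
  intro ε hε
  apply Filter.limsup_le_of_le
  · refine ⟨0, ?_⟩
    intro a ha
    rw [Filter.eventually_map] at ha
    obtain ⟨n, hn⟩ := ha.exists
    exact le_trans (by positivity) hn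
  · obtain ⟨N, hN⟩ := exists_nat_gt (30 / (20 * ε))
    filter_upwards [Filter.eventually_ge_atTop (max 2 N)] with n hn
    have hn2 : 2 ≤ n := le_trans (le_max_left _ _) hn
    have hnN : N ≤ n := le_trans (le_max_right _ _) hn
    have h1 := hf n hn2
    have h1' : 20 * (f n : ℝ) ≤ 11 * n + 30 := by exact_mod_cast h1
    have hnpos : (0:ℝ) < n := by
      have : 0 < n := by omega
      exact_mod_cast this
    have hnN' : (N:ℝ) ≤ n := by exact_mod_cast hnN
    have h2 : 30 / (20 * ε) < n := lt_of_lt_of_le hN hnN'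
    rw [div_lt_iff₀ (by positivity)] at h2
    rw [div_le_iff₀ hnpos]
    nlinarith

/-- **Main theorem.**  Bounds for all subcubic trees, for all subcubic forests without isolated
vertices, and the resulting bounds `c_d ≤ 11/20` and `c_s ≤ 11/20`. -/
theorem result :
    (∀ (V : Type) [Fintype V] [DecidableEq V] (T : SimpleGraph V) [DecidableRel T.Adj],
      T.IsTree → 2 ≤ Fintype.card V → (∀ v, T.degree v ≤ 3) →
        20 * Id T ≤ 11 * Fintype.card V ∧ 20 * Is T ≤ 11 * Fintype.card V + 30) ∧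
    (∀ (V : Type) [Fintype V] [DecidableEq V] (F : SimpleGraph V) [DecidableRel F.Adj],
      F.IsAcyclic → (∀ v, 1 ≤ F.degree v ∧ F.degree v ≤ 3) →
        20 * Id F ≤ 11 * Fintype.card V ∧ 20 * Is F ≤ 11 * Fintype.card V + 30) ∧
    Filter.limsup (fun n : ℕ => (fd n : ℝ) / n) Filter.atTop ≤ 11 / 20 ∧
    Filter.limsup (fun n : ℕ => (fs n : ℝ) / n) Filter.atTop ≤ 11 / 20 := by
  refine ⟨?_, ?_, ?_, ?_⟩
  · intro V _ _ T _ hT hn h3
    exact tree_bounds T hT hn h3
  · intro V _ _ F _ hF h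
    exact forest_bounds F hF (fun v => (h v).2) (fun v => (h v).1)
  · apply limsup_aux
    intro n hn
    have := fd_le hn
    omega
  · apply limsup_aux
    intro n hn
    exact fs_le hn

end Pool.Agent.Results.MP_ee8ab4_co.ElevenTwentieths
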